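import Mathlib

/-!
# Six consecutive integers n, ..., n+5 with n = 5 mod 6

If `n ≡ 5 (mod 6)` then one of `n, ..., n+5` has at least three distinct prime factors, with exactly
twelve exceptions. The proof: the multiple of 6 among them is `N = 2^a 3^b`; the primes 5, 7, 13 force
the exponents into a few classes modulo 12, and each of these is settled by an algebraic
factorisation or a small exponential equation.
-/

open scoped ArithmeticFunction.omega

namespace Pool.Agent.Helper90.FiveModSix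

lemma per {g m k : ℕ} (h : g ^ k % m = 1 % m) (j : ℕ) : g ^ j % m = g ^ (j % k) % m := by
  conv_lhs => rw [← Nat.div_add_mod j k, pow_add, pow_mul, Nat.mul_mod, Nat.pow_mod, h,
    ← Nat.pow_mod, one_pow, ← Nat.mul_mod, one_mul]

/-- residues of `2^x * 3^y` modulo `m` -/
lemma per2 {m k l : ℕ} (h2 : 2 ^ k % m = 1 % m) (h3 : 3 ^ l % m = 1 % m) (x y : ℕ) :
    (2 ^ x * 3 ^ y) % m = (2 ^ (x % k) * 3 ^ (y % l)) % m := by
  rw [Nat.mul_mod, per h2 x, per h3 y, ← Nat.mul_mod]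

lemma not_dvd_23 {q : ℕ} (hq : q.Prime) (h : 3 < q) (x y : ℕ) : ¬ q ∣ 2 ^ x * 3 ^ y := by
  intro hd
  rcases (Nat.Prime.dvd_mul hq).mp hd with h1 | h1
  · have := (Nat.prime_dvd_prime_iff_eq hq Nat.prime_two).mp (hq.dvd_of_dvd_pow h1)
    omega
  · have := (Nat.prime_dvd_prime_iff_eq hq Nat.prime_three).mp (hq.dvd_of_dvd_pow h1)
    omega

/-- `p^j = 2^x 3^y + 1` with `y ≥ 2` is impossible for `p = 5, 7, 13, 11` -/
lemma L1 {p j x y : ℕ} (hp : p = 5 ∨ p = 7 ∨ p = 13 ∨ p = 11) (hy : 2 ≤ y)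
    (h : p ^ j = 2 ^ x * 3 ^ y + 1) : False := by
  have h9 : p ^ j % 9 = 1 := by
    obtain ⟨z, rfl⟩ := Nat.exists_eq_add_of_le hy
    rw [h, pow_add]
    have : 2 ^ x * (3 ^ 2 * 3 ^ z) + 1 = 9 * (2 ^ x * 3 ^ z) + 1 := by ring
    rw [this]
    omega
  rcases hp with rfl | rfl | rfl | rfl
  · have h6 : j % 6 = 0 := by
      rw [per (k := 6) (by norm_num)] at h9
      have := Nat.mod_lt j (show 0 < 6 by norm_num)
      interval_cases hj : j % 6 <;> simp_all
    have h7 : 5 ^ j % 7 = 1 := by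
      rw [per (k := 6) (by norm_num), h6]; rfl
    have : 7 ∣ 2 ^ x * 3 ^ y := by omega
    exact not_dvd_23 (by norm_num) (by norm_num) _ _ this
  · have h6 : j % 3 = 0 := by
      rw [per (k := 3) (by norm_num)] at h9
      have := Nat.mod_lt j (show 0 < 3 by norm_num)
      interval_cases hj : j % 3 <;> simp_all
    have h7 : 7 ^ j % 19 = 1 := by
      rw [per (k := 3) (by norm_num), h6]; rfl
    have : 19 ∣ 2 ^ x * 3 ^ y := by omega
    exact not_dvd_23 (by norm_num) (by norm_num) _ _ this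
  · have h6 : j % 3 = 0 := by
      rw [per (k := 3) (by norm_num)] at h9
      have := Nat.mod_lt j (show 0 < 3 by norm_num)
      interval_cases hj : j % 3 <;> simp_all
    have h7 : 13 ^ j % 61 = 1 := by
      rw [per (k := 3) (by norm_num), h6]; rfl
    have : 61 ∣ 2 ^ x * 3 ^ y := by omega
    exact not_dvd_23 (by norm_num) (by norm_num) _ _ this
  · have h6 : j % 6 = 0 := by
      rw [per (k := 6) (by norm_num)] at h9
      have := Nat.mod_lt j (show 0 < 6 by norm_num)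
      interval_cases hj : j % 6 <;> simp_all
    have h7 : 11 ^ j % 7 = 1 := by
      rw [per (k := 6) (by norm_num), h6]; rfl
    have : 7 ∣ 2 ^ x * 3 ^ y := by omega
    exact not_dvd_23 (by norm_num) (by norm_num) _ _ this

/-- `p^j = 2^x 3^y + 1` with `x ≥ 5` is impossible for `p = 5, 7, 13` -/
lemma L2 {p j x y : ℕ} (hp : p = 5 ∨ p = 7 ∨ p = 13) (hx : 5 ≤ x)
    (h : p ^ j = 2 ^ x * 3 ^ y + 1) : False := by
  have h9 : p ^ j % 32 = 1 := by
    obtain ⟨z, rfl⟩ := Nat.exists_eq_add_of_le hx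
    rw [h, pow_add]
    have : 2 ^ 5 * 2 ^ z * 3 ^ y + 1 = 32 * (2 ^ z * 3 ^ y) + 1 := by ring
    rw [this]
    omega
  rcases hp with rfl | rfl | rfl
  · have h6 : j % 8 = 0 := by
      rw [per (k := 8) (by norm_num)] at h9
      have := Nat.mod_lt j (show 0 < 8 by norm_num)
      interval_cases hj : j % 8 <;> simp_all
    have h7 : 5 ^ j % 13 = 1 := by
      rw [per (k := 8) (by norm_num), h6]; rfl
    have : 13 ∣ 2 ^ x * 3 ^ y := by omega
    exact not_dvd_23 (by norm_num) (by norm_num) _ _ this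
  · have h6 : j % 4 = 0 := by
      rw [per (k := 4) (by norm_num)] at h9
      have := Nat.mod_lt j (show 0 < 4 by norm_num)
      interval_cases hj : j % 4 <;> simp_all
    have h7 : 7 ^ j % 5 = 1 := by
      rw [per (k := 4) (by norm_num), h6]; rfl
    have : 5 ∣ 2 ^ x * 3 ^ y := by omega
    exact not_dvd_23 (by norm_num) (by norm_num) _ _ this
  · have h6 : j % 8 = 0 := by
      rw [per (k := 8) (by norm_num)] at h9
      have := Nat.mod_lt j (show 0 < 8 by norm_num)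
      interval_cases hj : j % 8 <;> simp_all
    have h7 : 13 ^ j % 5 = 1 := by
      rw [per (k := 8) (by norm_num), h6]; rfl
    have : 5 ∣ 2 ^ x * 3 ^ y := by omega
    exact not_dvd_23 (by norm_num) (by norm_num) _ _ this

lemma pow3_mod8 (b : ℕ) : 3 ^ b % 8 = 3 ^ (b % 2) % 8 := per (k := 2) (by norm_num) b

lemma pow_ge_dvd {p j : ℕ} (hj : 1 ≤ j) : p ∣ p ^ j := dvd_pow_self p (by omega)

/-- reduce an equation `A * g^j = h^b + C` modulo `m` -/
lemma red {A g j h b C m k l : ℕ} (e : A * g ^ j = h ^ b + C) (hg : g ^ k % m = 1 % m)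
    (hh : h ^ l % m = 1 % m) :
    (A * (g ^ (j % k) % m)) % m = (h ^ (b % l) % m + C) % m := by
  rw [← per hg, ← per hh, Nat.mul_mod_mod, Nat.mod_add_mod, e]

lemma red1 {A g j h b C m k c : ℕ} (e : A * g ^ j = h ^ b + C) (hg : g ^ k % m = 1 % m)
    (hc : c ≤ b) (hh : m ∣ h ^ c) :
    (A * (g ^ (j % k) % m)) % m = C % m := by
  have hd : m ∣ h ^ b := hh.trans (pow_dvd_pow _ hc)
  rw [← per hg, Nat.mul_mod_mod, e, Nat.add_mod, Nat.mod_eq_zero_of_dvd hd, zero_add, Nat.mod_mod]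

/-- `2^i 5^j = 3^b + 1`, `j ≥ 1`, `b ≥ 3` impossible -/
lemma L3a {i j b : ℕ} (hj : 1 ≤ j) (hb : 3 ≤ b) (h : 2 ^ i * 5 ^ j = 3 ^ b + 1) : False := by
  -- b ≡ 2 mod 4
  have h5 : (3 ^ b + 1) % 5 = 0 := by
    rw [← h]
    exact Nat.mod_eq_zero_of_dvd ((pow_ge_dvd hj).mul_left _)
  have hb4 : b % 4 = 2 := by
    have e : 3 ^ b % 5 = 3 ^ (b % 4) % 5 := per (k := 4) (by norm_num) b
    have key : ∀ r < 4, (3 ^ r % 5 + 1) % 5 = 0 → r = 2 := by decide
    refine key (b % 4) (Nat.mod_lt _ (by norm_num)) ?_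
    rw [← e, Nat.mod_add_mod]; exact h5
  have h8 : (3 ^ b + 1) % 8 = 2 := by
    have e := pow3_mod8 b
    have : b % 2 = 0 := by omega
    rw [Nat.add_mod, e, this]; rfl
  have hi : i = 1 := by
    have h5odd : 5 ^ j % 4 = 1 := by
      rw [per (k := 1) (by norm_num), Nat.mod_one]; norm_num
    rcases Nat.lt_or_ge i 2 with hi | hi
    · interval_cases i
      · omega
      · rfl
    · obtain ⟨z, rfl⟩ := Nat.exists_eq_add_of_le hi
      rw [← h, pow_add] at h8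
      have : 2 ^ 2 * 2 ^ z * 5 ^ j = 4 * (2 ^ z * 5 ^ j) := by ring
      omega
  subst hi
  have hj18 : j % 18 = 7 := by
    have key : ∀ r < 18, (2 ^ 1 * (5 ^ r % 27)) % 27 = 1 % 27 → r = 7 := by decide
    exact key (j % 18) (Nat.mod_lt _ (by norm_num)) (red1 h (by norm_num) hb (by norm_num))
  have t1 := red (m := 19) (k := 18) (l := 18) h (by norm_num) (by norm_num)
  have t2 := red (m := 7) (k := 18) (l := 18) h (by norm_num) (by norm_num)
  rw [hj18] at t1 t2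
  have key : ∀ r < 18, (2 ^ 1 * (5 ^ 7 % 19)) % 19 = (3 ^ r % 19 + 1) % 19 →
    (2 ^ 1 * (5 ^ 7 % 7)) % 7 = (3 ^ r % 7 + 1) % 7 → False := by decide
  exact key (b % 18) (Nat.mod_lt b (by norm_num)) t1 t2

/-- `2^i 7^j = 3^b + 1`, `j ≥ 1`, `b ≥ 4` impossible -/
lemma L3b {i j b : ℕ} (hj : 1 ≤ j) (hb : 4 ≤ b) (h : 2 ^ i * 7 ^ j = 3 ^ b + 1) : False := by
  have h5 : (3 ^ b + 1) % 7 = 0 := by
    rw [← h]
    exact Nat.mod_eq_zero_of_dvd ((pow_ge_dvd hj).mul_left _)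
  have hb4 : b % 2 = 1 := by
    have e : 3 ^ b % 7 = 3 ^ (b % 6) % 7 := per (k := 6) (by norm_num) b
    have key : ∀ r < 6, (3 ^ r % 7 + 1) % 7 = 0 → r = 3 := by decide
    have := key (b % 6) (Nat.mod_lt b (by norm_num)) (by rw [← e, Nat.mod_add_mod]; exact h5)
    omega
  have h8 : (3 ^ b + 1) % 8 = 4 := by
    have e := pow3_mod8 b
    rw [Nat.add_mod, e, hb4]; rfl
  have hi : i = 2 := by
    have h5odd : 7 ^ j % 2 = 1 := by
      rw [per (k := 1) (by norm_num), Nat.mod_one]; norm_num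
    rcases Nat.lt_or_ge i 3 with hi | hi
    · interval_cases i
      · omega
      · omega
      · rfl
    · obtain ⟨z, rfl⟩ := Nat.exists_eq_add_of_le hi
      rw [← h, pow_add] at h8
      have : 2 ^ 3 * 2 ^ z * 7 ^ j = 8 * (2 ^ z * 7 ^ j) := by ring
      omega
  subst hi
  have hj27 : j % 27 = 10 := by
    have key : ∀ r < 27, (2 ^ 2 * (7 ^ r % 81)) % 81 = 1 % 81 → r = 10 := by decide
    exact key (j % 27) (Nat.mod_lt _ (by norm_num)) (red1 h (by norm_num) hb (by norm_num))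
  have t1 := red (m := 109) (k := 27) (l := 27) h (by norm_num) (by norm_num)
  rw [hj27] at t1
  have key : ∀ r < 27, (2 ^ 2 * (7 ^ 10 % 109)) % 109 = (3 ^ r % 109 + 1) % 109 → False := by
    decide
  exact key (b % 27) (Nat.mod_lt b (by norm_num)) t1

/-- `p^j = 3^b + 2`, `b ≥ 3` impossible for `p = 5, 7, 13` -/
lemma L4 {p j b : ℕ} (hp : p = 5 ∨ p = 7 ∨ p = 13) (hb : 3 ≤ b)
    (h : p ^ j = 3 ^ b + 2) : False := by
  rw [← one_mul (p ^ j)] at h
  rcases hp with rfl | rfl | rfl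
  · have hj18 : j % 18 = 11 := by
      have key : ∀ r < 18, (1 * (5 ^ r % 27)) % 27 = 2 % 27 → r = 11 := by decide
      exact key (j % 18) (Nat.mod_lt _ (by norm_num)) (red1 h (by norm_num) hb (by norm_num))
    have t1 := red (m := 19) (k := 18) (l := 18) h (by norm_num) (by norm_num)
    have t2 := red (m := 7) (k := 18) (l := 18) h (by norm_num) (by norm_num)
    rw [hj18] at t1 t2
    have key : ∀ r < 18, (1 * (5 ^ 11 % 19)) % 19 = (3 ^ r % 19 + 2) % 19 →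
      (1 * (5 ^ 11 % 7)) % 7 = (3 ^ r % 7 + 2) % 7 → False := by decide
    exact key (b % 18) (Nat.mod_lt b (by norm_num)) t1 t2
  · have t := red1 (m := 3) (k := 1) (c := 3) h (by norm_num) hb (by norm_num)
    rw [Nat.mod_one] at t
    norm_num at t
  · have t := red1 (m := 3) (k := 1) (c := 3) h (by norm_num) hb (by norm_num)
    rw [Nat.mod_one] at t
    norm_num at t

lemma omega_card (m : ℕ) : ω m = m.primeFactors.card := by
  rw [ArithmeticFunction.cardDistinctFactors_apply, Nat.primeFactors, List.card_toFinset]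

lemma two_primes {m p q : ℕ} (hm : m ≠ 0) (hp : p.Prime) (hq : q.Prime) (hpq : p ≠ q)
    (h1 : p ∣ m) (h2 : q ∣ m) (hω : ω m ≤ 2) : ∃ i j, 1 ≤ i ∧ 1 ≤ j ∧ m = p ^ i * q ^ j := by
  rw [omega_card] at hω
  have hs : ({p, q} : Finset ℕ) ⊆ m.primeFactors := by
    intro r hr
    rw [Finset.mem_insert, Finset.mem_singleton] at hr
    rw [Nat.mem_primeFactors]
    rcases hr with rfl | rfl
    · exact ⟨hp, h1, hm⟩
    · exact ⟨hq, h2, hm⟩
  have he : ({p, q} : Finset ℕ) = m.primeFactors := by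
    apply Finset.eq_of_subset_of_card_le hs
    rw [Finset.card_pair hpq]
    exact hω
  refine ⟨m.factorization p, m.factorization q, ?_, ?_, ?_⟩
  · exact (hp.dvd_iff_one_le_factorization hm).mp h1
  · exact (hq.dvd_iff_one_le_factorization hm).mp h2
  · have := Nat.prod_factorization_pow_eq_self hm
    rw [Finsupp.prod, Nat.support_factorization, ← he, Finset.prod_pair hpq] at this
    exact this.symm

lemma pow_of_coprime_mul {u v p : ℕ} (hu : 1 < u) (hv : 1 < v) (hc : u.Coprime v)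
    (hω : ω (u * v) ≤ 2) (hp : p.Prime) (hd : p ∣ u) : ∃ k, 1 ≤ k ∧ u = p ^ k := by
  rw [ArithmeticFunction.cardDistinctFactors_mul hc] at hω
  have h1 : 0 < ω v := ArithmeticFunction.cardDistinctFactors_pos.mpr hv
  have h2 : 0 < ω u := ArithmeticFunction.cardDistinctFactors_pos.mpr hu
  have h3 : ω u = 1 := by omega
  rw [ArithmeticFunction.cardDistinctFactors_eq_one_iff, isPrimePow_nat_iff] at h3
  obtain ⟨q, k, hq, hk, rfl⟩ := h3
  have := (Nat.prime_dvd_prime_iff_eq hp hq).mp (hp.dvd_of_dvd_pow hd)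
  exact ⟨k, hk, by rw [this]⟩

lemma three_factors {u v w : ℕ} (hu : 1 < u) (hv : 1 < v) (hw : 1 < w) (huv : u.Coprime v)
    (huw : u.Coprime w) (hvw : v.Coprime w) : 3 ≤ ω (u * v * w) := by
  rw [ArithmeticFunction.cardDistinctFactors_mul (Nat.Coprime.mul_left huw hvw),
    ArithmeticFunction.cardDistinctFactors_mul huv]
  have h1 : 0 < ω u := ArithmeticFunction.cardDistinctFactors_pos.mpr hu
  have h2 : 0 < ω v := ArithmeticFunction.cardDistinctFactors_pos.mpr hv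
  have h3 : 0 < ω w := ArithmeticFunction.cardDistinctFactors_pos.mpr hw
  omega

lemma three_primes {m p q r : ℕ} (hm : m ≠ 0) (hp : p.Prime) (hq : q.Prime) (hr : r.Prime)
    (hpq : p ≠ q) (hpr : p ≠ r) (hqr : q ≠ r)
    (h1 : p ∣ m) (h2 : q ∣ m) (h3 : r ∣ m) : 3 ≤ ω m := by
  rw [omega_card]
  have hs : ({p, q, r} : Finset ℕ) ⊆ m.primeFactors := by
    intro s hs
    simp only [Finset.mem_insert, Finset.mem_singleton] at hs
    rw [Nat.mem_primeFactors]
    rcases hs with rfl | rfl | rfl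
    · exact ⟨hp, h1, hm⟩
    · exact ⟨hq, h2, hm⟩
    · exact ⟨hr, h3, hm⟩
  calc 3 = ({p, q, r} : Finset ℕ).card := by
        rw [Finset.card_insert_of_notMem, Finset.card_pair hqr]
        simp [hpq, hpr]
    _ ≤ _ := Finset.card_le_card hs

lemma prime_of {p : ℕ} (hp : p = 5 ∨ p = 7 ∨ p = 13) : p.Prime := by
  rcases hp with rfl | rfl | rfl <;> norm_num

lemma odd_of {p : ℕ} (hp : p = 5 ∨ p = 7 ∨ p = 13) (j : ℕ) : p ^ j % 2 = 1 := by
  rcases hp with rfl | rfl | rfl <;>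
  · rw [Nat.pow_mod]; norm_num

lemma L3c {b : ℕ} (h : 13 ∣ 3 ^ b + 1) : False := by
  have e : 3 ^ b % 13 = 3 ^ (b % 3) % 13 := per (k := 3) (by norm_num) b
  have key : ∀ r < 3, (3 ^ r % 13 + 1) % 13 = 0 → False := by decide
  refine key (b % 3) (Nat.mod_lt _ (by norm_num)) ?_
  rw [← e, Nat.mod_add_mod]
  exact Nat.mod_eq_zero_of_dvd h

lemma L3 {p i j b : ℕ} (hp : p = 5 ∨ p = 7 ∨ p = 13) (hj : 1 ≤ j) (hb : 4 ≤ b)
    (h : 2 ^ i * p ^ j = 3 ^ b + 1) : False := by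
  rcases hp with rfl | rfl | rfl
  · exact L3a hj (by omega) h
  · exact L3b hj hb h
  · apply L3c (b := b)
    rw [← h]
    exact (pow_ge_dvd hj).mul_left _

lemma L5 {p k j a : ℕ} (hp : p = 5 ∨ p = 7 ∨ p = 13) (hj : 1 ≤ j) (ha : 5 ≤ a)
    (h : 3 ^ k * p ^ j = 2 ^ a + 1) : False := by
  have hd : p ∣ 2 ^ a + 1 := by
    rw [← h]; exact (pow_ge_dvd hj).mul_left _
  have heven : a % 2 = 0 := by
    have hd' := Nat.mod_eq_zero_of_dvd hd
    rcases hp with rfl | rfl | rfl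
    · have e : 2 ^ a % 5 = 2 ^ (a % 4) % 5 := per (k := 4) (by norm_num) a
      have key : ∀ r < 4, (2 ^ r % 5 + 1) % 5 = 0 → r = 2 := by decide
      have := key (a % 4) (Nat.mod_lt _ (by norm_num)) (by rw [← e, Nat.mod_add_mod]; exact hd')
      omega
    · have e : 2 ^ a % 7 = 2 ^ (a % 3) % 7 := per (k := 3) (by norm_num) a
      have key : ∀ r < 3, (2 ^ r % 7 + 1) % 7 = 0 → False := by decide
      exact (key (a % 3) (Nat.mod_lt _ (by norm_num))
        (by rw [← e, Nat.mod_add_mod]; exact hd')).elim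
    · have e : 2 ^ a % 13 = 2 ^ (a % 12) % 13 := per (k := 12) (by norm_num) a
      have key : ∀ r < 12, (2 ^ r % 13 + 1) % 13 = 0 → r = 6 := by decide
      have := key (a % 12) (Nat.mod_lt _ (by norm_num)) (by rw [← e, Nat.mod_add_mod]; exact hd')
      omega
  have h3 : (2 ^ a + 1) % 3 = 2 := by
    have e : 2 ^ a % 3 = 2 ^ (a % 2) % 3 := per (k := 2) (by norm_num) a
    rw [Nat.add_mod, e, heven]
    rfl
  have hk : k = 0 := by
    by_contra hk
    have : 3 ∣ 2 ^ a + 1 := by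
      rw [← h]
      exact (dvd_pow_self 3 hk).mul_right _
    omega
  subst hk
  rw [pow_zero, one_mul] at h
  exact L2 (p := p) (j := j) (x := a) (y := 0) hp ha (by rw [pow_zero, mul_one]; exact h)

lemma kill2 {p a b : ℕ} (hp : p = 5 ∨ p = 7 ∨ p = 13) (ha : 1 ≤ a) (hb : 1 ≤ b)
    (hN : 2304 < 2 ^ a * 3 ^ b) (hω : ω (2 ^ a * 3 ^ b + 2) ≤ 2) (hd : p ∣ 2 ^ a * 3 ^ b + 2) :
    False := by
  have h2 : 2 ∣ 2 ^ a * 3 ^ b + 2 :=
    Nat.dvd_add ((dvd_pow_self 2 (by omega)).mul_right _) dvd_rfl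
  obtain ⟨i, j, hi, hj, h⟩ := two_primes (by omega) Nat.prime_two (prime_of hp)
    (by rcases hp with rfl | rfl | rfl <;> norm_num) h2 hd hω
  obtain ⟨i, rfl⟩ : ∃ i', i = i' + 1 := ⟨i - 1, by omega⟩
  obtain ⟨a, rfl⟩ : ∃ a', a = a' + 1 := ⟨a - 1, by omega⟩
  have h' : 2 ^ i * p ^ j = 2 ^ a * 3 ^ b + 1 := by
    have e1 : 2 ^ (a + 1) * 3 ^ b + 2 = 2 * (2 ^ a * 3 ^ b + 1) := by ring
    have e2 : 2 ^ (i + 1) * p ^ j = 2 * (2 ^ i * p ^ j) := by ring
    omega
  rcases Nat.eq_zero_or_pos a with rfl | ha'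
  · -- a = 1
    rw [pow_zero, one_mul] at h'
    have hb4 : 4 ≤ b := by
      by_contra hc
      have : b ≤ 3 := by omega
      interval_cases b <;> norm_num at hN
    exact L3 hp hj hb4 h'
  · have hodd := odd_of hp j
    have hi0 : i = 0 := by
      by_contra hc
      obtain ⟨i', rfl⟩ : ∃ i', i = i' + 1 := ⟨i - 1, by omega⟩
      obtain ⟨a', rfl⟩ : ∃ a', a = a' + 1 := ⟨a - 1, by omega⟩
      have e1 : 2 ^ (i' + 1) * p ^ j = 2 * (2 ^ i' * p ^ j) := by ring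
      have e2 : 2 ^ (a' + 1) * 3 ^ b = 2 * (2 ^ a' * 3 ^ b) := by ring
      omega
    subst hi0
    rw [pow_zero, one_mul] at h'
    rcases Nat.lt_or_ge b 2 with hb2 | hb2
    · have : b = 1 := by omega
      subst this
      refine L2 hp ?_ h'
      by_contra hc
      have : a ≤ 4 := by omega
      interval_cases a <;> norm_num at hN
    · exact L1 (by tauto) hb2 h'

lemma kill3 {p a b : ℕ} (hp : p = 5 ∨ p = 7 ∨ p = 13) (ha : 1 ≤ a) (hb : 1 ≤ b)
    (hN : 2304 < 2 ^ a * 3 ^ b) (hω : ω (2 ^ a * 3 ^ b + 3) ≤ 2) (hd : p ∣ 2 ^ a * 3 ^ b + 3) :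
    False := by
  have h2 : 3 ∣ 2 ^ a * 3 ^ b + 3 :=
    Nat.dvd_add ((dvd_pow_self 3 (by omega)).mul_left _) dvd_rfl
  obtain ⟨i, j, hi, hj, h⟩ := two_primes (by omega) Nat.prime_three (prime_of hp)
    (by rcases hp with rfl | rfl | rfl <;> norm_num) h2 hd hω
  obtain ⟨i, rfl⟩ : ∃ i', i = i' + 1 := ⟨i - 1, by omega⟩
  obtain ⟨b, rfl⟩ : ∃ b', b = b' + 1 := ⟨b - 1, by omega⟩
  have h' : 3 ^ i * p ^ j = 2 ^ a * 3 ^ b + 1 := by
    have e1 : 2 ^ a * 3 ^ (b + 1) + 3 = 3 * (2 ^ a * 3 ^ b + 1) := by ring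
    have e2 : 3 ^ (i + 1) * p ^ j = 3 * (3 ^ i * p ^ j) := by ring
    omega
  rcases Nat.eq_zero_or_pos b with rfl | hb'
  · -- b = 1
    rw [pow_zero, mul_one] at h'
    refine L5 hp hj ?_ h'
    by_contra hc
    have : a ≤ 4 := by omega
    interval_cases a <;> norm_num at hN
  · have hi0 : i = 0 := by
      by_contra hc
      obtain ⟨i', rfl⟩ : ∃ i', i = i' + 1 := ⟨i - 1, by omega⟩
      obtain ⟨b', rfl⟩ : ∃ b', b = b' + 1 := ⟨b - 1, by omega⟩
      have e1 : 3 ^ (i' + 1) * p ^ j = 3 * (3 ^ i' * p ^ j) := by ring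
      have e2 : 2 ^ a * 3 ^ (b' + 1) = 3 * (2 ^ a * 3 ^ b') := by ring
      omega
    subst hi0
    rw [pow_zero, one_mul] at h'
    rcases Nat.lt_or_ge b 2 with hb2 | hb2
    · have : b = 1 := by omega
      subst this
      refine L2 hp ?_ h'
      by_contra hc
      have : a ≤ 4 := by omega
      interval_cases a <;> norm_num at hN
    · exact L1 (by tauto) hb2 h'

lemma kill4 {p a b : ℕ} (hp : p = 5 ∨ p = 7 ∨ p = 13) (ha : 1 ≤ a) (hb : 1 ≤ b)
    (hN : 2304 < 2 ^ a * 3 ^ b) (hω : ω (2 ^ a * 3 ^ b + 4) ≤ 2) (hd : p ∣ 2 ^ a * 3 ^ b + 4) :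
    False := by
  have h2 : 2 ∣ 2 ^ a * 3 ^ b + 4 :=
    Nat.dvd_add ((dvd_pow_self 2 (by omega)).mul_right _) (by norm_num)
  obtain ⟨i, j, hi, hj, h⟩ := two_primes (by omega) Nat.prime_two (prime_of hp)
    (by rcases hp with rfl | rfl | rfl <;> norm_num) h2 hd hω
  have hodd := odd_of hp j
  obtain ⟨i, rfl⟩ : ∃ i', i = i' + 1 := ⟨i - 1, by omega⟩
  obtain ⟨a, rfl⟩ : ∃ a', a = a' + 1 := ⟨a - 1, by omega⟩
  have h' : 2 ^ i * p ^ j = 2 ^ a * 3 ^ b + 2 := by
    have e1 : 2 ^ (a + 1) * 3 ^ b + 4 = 2 * (2 ^ a * 3 ^ b + 2) := by ring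
    have e2 : 2 ^ (i + 1) * p ^ j = 2 * (2 ^ i * p ^ j) := by ring
    omega
  rcases Nat.eq_zero_or_pos a with rfl | ha'
  · -- a = 1 : 2^i p^j = 3^b + 2
    rw [pow_zero, one_mul] at h'
    have hi0 : i = 0 := by
      by_contra hc
      obtain ⟨i', rfl⟩ : ∃ i', i = i' + 1 := ⟨i - 1, by omega⟩
      have e1 : 2 ^ (i' + 1) * p ^ j = 2 * (2 ^ i' * p ^ j) := by ring
      have e3 : 3 ^ b % 2 = 1 := by rw [Nat.pow_mod]; norm_num
      omega
    subst hi0
    rw [pow_zero, one_mul] at h'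
    refine L4 hp ?_ h'
    by_contra hc
    have : b ≤ 2 := by omega
    interval_cases b <;> norm_num at hN
  · obtain ⟨a, rfl⟩ : ∃ a', a = a' + 1 := ⟨a - 1, by omega⟩
    have hi1 : i ≠ 0 := by
      rintro rfl
      have e1 : 2 ^ (a + 1) * 3 ^ b = 2 * (2 ^ a * 3 ^ b) := by ring
      rw [pow_zero, one_mul] at h'
      omega
    obtain ⟨i, rfl⟩ : ∃ i', i = i' + 1 := ⟨i - 1, by omega⟩
    have h'' : 2 ^ i * p ^ j = 2 ^ a * 3 ^ b + 1 := by
      have e1 : 2 ^ (a + 1) * 3 ^ b + 2 = 2 * (2 ^ a * 3 ^ b + 1) := by ring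
      have e2 : 2 ^ (i + 1) * p ^ j = 2 * (2 ^ i * p ^ j) := by ring
      omega
    rcases Nat.eq_zero_or_pos a with rfl | ha''
    · rw [pow_zero, one_mul] at h''
      refine L3 hp hj ?_ h''
      by_contra hc
      have : b ≤ 3 := by omega
      interval_cases b <;> norm_num at hN
    · have hi0 : i = 0 := by
        by_contra hc
        obtain ⟨i', rfl⟩ : ∃ i', i = i' + 1 := ⟨i - 1, by omega⟩
        obtain ⟨a', rfl⟩ : ∃ a', a = a' + 1 := ⟨a - 1, by omega⟩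
        have e1 : 2 ^ (i' + 1) * p ^ j = 2 * (2 ^ i' * p ^ j) := by ring
        have e2 : 2 ^ (a' + 1) * 3 ^ b = 2 * (2 ^ a' * 3 ^ b) := by ring
        omega
      subst hi0
      rw [pow_zero, one_mul] at h''
      rcases Nat.lt_or_ge b 2 with hb2 | hb2
      · have : b = 1 := by omega
        subst this
        refine L2 hp ?_ h''
        by_contra hc
        have : a ≤ 4 := by omega
        interval_cases a <;> norm_num at hN
      · exact L1 (by tauto) hb2 h''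

/-- squares: `N = x^2`, `N ≡ 1 mod p`, p = 7, 13 -/
lemma caseSq {p c d : ℕ} (hp : p = 7 ∨ p = 13) (hc : 1 ≤ c) (hd : 1 ≤ d)
    (hN : 2304 < 2 ^ (2 * c) * 3 ^ (2 * d)) (hω : ω (2 ^ (2 * c) * 3 ^ (2 * d) - 1) ≤ 2)
    (hdv : p ∣ 2 ^ (2 * c) * 3 ^ (2 * d) - 1) : False := by
  have hp' : p = 5 ∨ p = 7 ∨ p = 13 := by tauto
  set x := 2 ^ c * 3 ^ d with hx
  have hNx : 2 ^ (2 * c) * 3 ^ (2 * d) = x ^ 2 := by
    rw [hx, mul_pow, ← pow_mul, ← pow_mul, mul_comm 2 c, mul_comm 2 d]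
  have hx48 : 48 < x := by
    by_contra hcon
    have : x ≤ 48 := by omega
    have : x ^ 2 ≤ 48 ^ 2 := Nat.pow_le_pow_left this 2
    omega
  have h2x : x % 2 = 0 := by
    obtain ⟨c', rfl⟩ : ∃ c', c = c' + 1 := ⟨c - 1, by omega⟩
    rw [hx, pow_succ]
    have : 2 ^ c' * 2 * 3 ^ d = 2 * (2 ^ c' * 3 ^ d) := by ring
    omega
  have h3x : x % 3 = 0 := by
    obtain ⟨d', rfl⟩ : ∃ d', d = d' + 1 := ⟨d - 1, by omega⟩
    rw [hx, pow_succ]
    have : 2 ^ c * (3 ^ d' * 3) = 3 * (2 ^ c * 3 ^ d') := by ring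
    omega
  obtain ⟨z, hz⟩ : ∃ z, x = z + 1 := ⟨x - 1, by omega⟩
  have hfac : 2 ^ (2 * c) * 3 ^ (2 * d) - 1 = z * (z + 2) := by
    rw [hNx, hz]
    have : (z + 1) ^ 2 = z * (z + 2) + 1 := by ring
    omega
  rw [hfac] at hω hdv
  have hcop : z.Coprime (z + 2) := by
    have h1 : Nat.Coprime z 2 := by
      rw [Nat.coprime_two_right]
      exact Nat.odd_iff.mpr (by omega)
    simpa using h1
  rcases (Nat.Prime.dvd_mul (prime_of hp')).mp hdv with h1 | h1
  · obtain ⟨k, hk, hk2⟩ := pow_of_coprime_mul (by omega) (by omega) hcop hω (prime_of hp') h1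
    -- z = p^k , x = p^k + 1, 3 | x
    have : p ^ k % 3 = 1 := by
      rcases hp with rfl | rfl <;>
      · rw [Nat.pow_mod]; norm_num
    omega
  · rw [mul_comm] at hω
    obtain ⟨k, hk, hk2⟩ := pow_of_coprime_mul (by omega) (by omega) hcop.symm hω (prime_of hp') h1
    have h5 : p ^ k = 2 ^ c * 3 ^ d + 1 := by omega
    rcases Nat.lt_or_ge d 2 with hd2 | hd2
    · have : d = 1 := by omega
      subst this
      refine L2 hp' ?_ h5
      by_contra hcon
      have : c ≤ 4 := by omega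
      interval_cases c <;> norm_num at hN
    · exact L1 (by tauto) hd2 h5

lemma cube_coprime {z : ℕ} (hz : z % 3 = 0) (hz1 : 1 ≤ z) : (z + 1).Coprime (z * (z - 1) + 1) := by
  obtain ⟨w, rfl⟩ : ∃ w, z = w + 1 := ⟨z - 1, by omega⟩
  have e : (w + 1) * (w + 1 - 1) + 1 = (w + 1 + 1) * (w - 1) + 3 - (if w = 0 then 2 else 0) := by
    rcases Nat.eq_zero_or_pos w with rfl | hw
    · omega
    · obtain ⟨v, rfl⟩ : ∃ v, w = v + 1 := ⟨w - 1, by omega⟩
      simp only [Nat.add_sub_cancel]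
      rw [if_neg (by omega)]
      ring_nf
      omega
  rw [Nat.coprime_iff_gcd_eq_one]
  by_contra hne
  obtain ⟨q, hq, hqd⟩ := Nat.exists_prime_and_dvd hne
  have h1 : q ∣ w + 1 + 1 := hqd.trans (Nat.gcd_dvd_left _ _)
  have h2 : q ∣ (w + 1) * (w + 1 - 1) + 1 := hqd.trans (Nat.gcd_dvd_right _ _)
  have h1z : (q : ℤ) ∣ (w : ℤ) + 2 := by
    have : ((w + 1 + 1 : ℕ) : ℤ) = (w : ℤ) + 2 := by push_cast; ring
    rw [← this]; exact_mod_cast h1
  have h2z : (q : ℤ) ∣ ((w : ℤ) + 1) * w + 1 := by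
    have : (((w + 1) * (w + 1 - 1) + 1 : ℕ) : ℤ) = ((w : ℤ) + 1) * w + 1 := by
      simp
    rw [← this]; exact_mod_cast h2
  have h3z : (q : ℤ) ∣ 3 := by
    have : (3 : ℤ) = (((w : ℤ) + 1) * w + 1) - ((w : ℤ) + 2) * (w - 1) := by ring
    rw [this]
    exact dvd_sub h2z (h1z.mul_right _)
  have h3 : q ∣ 3 := by exact_mod_cast h3z
  have hq3 := (Nat.prime_dvd_prime_iff_eq hq Nat.prime_three).mp h3
  subst hq3
  omega

/-- `N/2` a cube -/
lemma caseCube {c d : ℕ} (hc : 1 ≤ c) (hd : 1 ≤ d)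
    (hω : ω (2 ^ (3 * c + 1) * 3 ^ (3 * d) + 2) ≤ 2) : False := by
  set z := 2 ^ c * 3 ^ d with hz
  have hz1 : 6 ≤ z := by
    calc 6 = 2 ^ 1 * 3 ^ 1 := by norm_num
      _ ≤ 2 ^ c * 3 ^ d := Nat.mul_le_mul (Nat.pow_le_pow_right (by norm_num) hc)
          (Nat.pow_le_pow_right (by norm_num) hd)
  have h2z : z % 2 = 0 := by
    obtain ⟨c', rfl⟩ : ∃ c', c = c' + 1 := ⟨c - 1, by omega⟩
    rw [hz, pow_succ]
    have : 2 ^ c' * 2 * 3 ^ d = 2 * (2 ^ c' * 3 ^ d) := by ring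
    omega
  have h3z : z % 3 = 0 := by
    obtain ⟨d', rfl⟩ : ∃ d', d = d' + 1 := ⟨d - 1, by omega⟩
    rw [hz, pow_succ]
    have : 2 ^ c * (3 ^ d' * 3) = 3 * (2 ^ c * 3 ^ d') := by ring
    omega
  have hfac : 2 ^ (3 * c + 1) * 3 ^ (3 * d) + 2 = 2 * (z + 1) * (z * (z - 1) + 1) := by
    have e : 2 ^ (3 * c + 1) * 3 ^ (3 * d) = 2 * z ^ 3 := by
      rw [hz, mul_pow, ← pow_mul, ← pow_mul, mul_comm c 3, mul_comm d 3, pow_succ]; ring
    rw [e]
    obtain ⟨w, hw⟩ : ∃ w, z = w + 1 := ⟨z - 1, by omega⟩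
    rw [hw, Nat.add_sub_cancel]; ring
  rw [hfac] at hω
  have hodd2 : (z * (z - 1) + 1) % 2 = 1 := by
    obtain ⟨w, hw⟩ : ∃ w, z = 2 * w := ⟨z / 2, by omega⟩
    rw [hw]
    have : 2 * w * (2 * w - 1) + 1 = 2 * (w * (2 * w - 1)) + 1 := by ring
    omega
  have h1 : 1 < z * (z - 1) + 1 := by
    have : 0 < z * (z - 1) := Nat.mul_pos (by omega) (by omega)
    omega
  have := three_factors (u := 2) (v := z + 1) (w := z * (z - 1) + 1) (by norm_num) (by omega) h1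
    (by rw [Nat.coprime_two_left]; exact Nat.odd_iff.mpr (by omega))
    (by rw [Nat.coprime_two_left]; exact Nat.odd_iff.mpr hodd2)
    (cube_coprime h3z (by omega))
  omega

/-- Sophie Germain case: exponential equation -/
lemma SGeq {Y γ δ k : ℕ} (hY : Y = 2 ^ γ * 3 ^ δ) (hδ : 1 ≤ δ) (hY6 : 6 ≤ Y)
    (h : 5 ^ k = 2 * (Y * (Y - 1)) + 1 ∨ 5 ^ k = 2 * (Y * (Y + 1)) + 1) : False := by
  -- 2 Y ∣ 5^k - 1
  have hdv : 2 * Y ∣ 5 ^ k - 1 := by
    rcases h with h | h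
    · exact ⟨Y - 1, by rw [h, Nat.add_sub_cancel]; ring⟩
    · exact ⟨Y + 1, by rw [h, Nat.add_sub_cancel]; ring⟩
  have h3Y : 3 ∣ Y := by rw [hY]; exact (dvd_pow_self 3 (by omega)).mul_left _
  have hbig : 61 ≤ 5 ^ k := by
    have h1 : 6 * 5 ≤ Y * (Y - 1) := Nat.mul_le_mul hY6 (by omega)
    have h2 : 6 * 7 ≤ Y * (Y + 1) := Nat.mul_le_mul hY6 (by omega)
    rcases h with h | h <;> omega
  have hk0 : k ≠ 0 := by rintro rfl; norm_num at hbig
  have hkeven : k % 2 = 0 := by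
    have h1 : 3 ∣ 5 ^ k - 1 := (h3Y.mul_left 2).trans hdv
    have e : 5 ^ k % 3 = 5 ^ (k % 2) % 3 := per (k := 2) (by norm_num) k
    have h2 : 5 ^ k % 3 = 1 := by omega
    rw [e] at h2
    rcases Nat.mod_two_eq_zero_or_one k with h3 | h3
    · exact h3
    · rw [h3] at h2; norm_num at h2
  obtain ⟨m, rfl⟩ : ∃ m, k = 2 * m := ⟨k / 2, by omega⟩
  have hm0 : m ≠ 0 := by omega
  have h25 : 5 ^ (2 * m) = 25 ^ m := by rw [pow_mul]; norm_num
  have hne : 25 ^ m - 1 ≠ 0 := by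
    rw [← h25]; omega
  -- 3-part
  have h3 : 3 ^ δ ∣ 3 * m := by
    have h1 : 3 ^ δ ∣ 25 ^ m - 1 := by
      rw [← h25]
      refine Dvd.dvd.trans ?_ hdv
      rw [hY]
      exact (dvd_mul_left _ _).mul_left _
    have : Fact (Nat.Prime 3) := ⟨Nat.prime_three⟩
    rw [padicValNat_dvd_iff_le hne] at h1
    have h2 := padicValNat.pow_sub_pow (p := 3) (x := 25) (y := 1) (by decide) (by norm_num)
      (by norm_num) (by norm_num) hm0
    rw [one_pow] at h2
    have h24 : padicValNat 3 (25 - 1) = 1 := by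
      have : (25 - 1 : ℕ) = 3 * 8 := by norm_num
      rw [this, padicValNat.mul (by norm_num) (by norm_num), padicValNat_self,
        padicValNat.eq_zero_of_not_dvd (by norm_num)]
    rw [padicValNat_dvd_iff_le (by omega), padicValNat.mul (by norm_num) hm0, padicValNat_self]
    omega
  have h2' : 2 ^ γ ∣ 4 * m := by
    have h1 : 2 ^ (γ + 1) ∣ 5 ^ (2 * m) - 1 := by
      refine Dvd.dvd.trans ?_ hdv
      rw [hY]
      exact ⟨3 ^ δ, by ring⟩
    have : Fact (Nat.Prime 2) := ⟨Nat.prime_two⟩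
    rw [padicValNat_dvd_iff_le (by rw [h25]; exact hne)] at h1
    have h2 := padicValNat.pow_two_sub_pow (x := 5) (y := 1) (by norm_num) (by norm_num)
      (by norm_num) (n := 2 * m) (by omega) (by simp)
    rw [one_pow] at h2
    have e6 : padicValNat 2 (5 + 1) = 1 := by
      have : (5 + 1 : ℕ) = 2 * 3 := by norm_num
      rw [this, padicValNat.mul (by norm_num) (by norm_num), padicValNat_self,
        padicValNat.eq_zero_of_not_dvd (by norm_num)]
    have e4 : padicValNat 2 (5 - 1) = 2 := by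
      have : (5 - 1 : ℕ) = 2 ^ 2 := by norm_num
      rw [this, padicValNat.prime_pow]
    have e2m : padicValNat 2 (2 * m) = 1 + padicValNat 2 m := by
      rw [padicValNat.mul (by norm_num) hm0, padicValNat_self]
    rw [padicValNat_dvd_iff_le (by omega)]
    have e4m : padicValNat 2 (4 * m) = 2 + padicValNat 2 m := by
      rw [padicValNat.mul (by norm_num) hm0]
      have : (4 : ℕ) = 2 ^ 2 := by norm_num
      rw [this, padicValNat.prime_pow]
    omega
  have hYm : Y ∣ 12 * m := by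
    rw [hY]
    apply Nat.Coprime.mul_dvd_of_dvd_of_dvd
    · exact Nat.Coprime.pow _ _ (by norm_num)
    · exact h2'.trans ⟨3, by ring⟩
    · exact h3.trans ⟨4, by ring⟩
  have hYle : Y ≤ 12 * m := Nat.le_of_dvd (by omega) hYm
  have hup : 25 ^ m ≤ 288 * m ^ 2 + 24 * m + 1 := by
    rw [← h25]
    have h1 : Y * (Y + 1) ≤ 12 * m * (12 * m + 1) := Nat.mul_le_mul hYle (by omega)
    have h2 : Y * (Y - 1) ≤ Y * (Y + 1) := Nat.mul_le_mul_left _ (by omega)
    have h3 : 2 * (12 * m * (12 * m + 1)) + 1 = 288 * m ^ 2 + 24 * m + 1 := by ring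
    rcases h with h | h <;> omega
  have hm2 : m ≤ 2 := by
    by_contra hcon
    have hm3 : 3 ≤ m := by omega
    have : 288 * m ^ 2 + 24 * m + 1 < 25 ^ m := by
      clear hup hYle hYm h2' h3 hne h25 hkeven hk0 hbig hdv h hm0 hcon
      induction m, hm3 using Nat.le_induction with
      | base => norm_num
      | succ m hm ih =>
        calc 288 * (m + 1) ^ 2 + 24 * (m + 1) + 1 ≤ 25 * (288 * m ^ 2 + 24 * m + 1) := by
              nlinarith
          _ < 25 * 25 ^ m := by omega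
          _ = 25 ^ (m + 1) := by ring
    omega
  have hY24 : Y ≤ 24 := by omega
  have h2Y : 5 ^ (2 * m) = 25 ∨ 5 ^ (2 * m) = 625 := by
    have : m = 1 ∨ m = 2 := by omega
    rcases this with rfl | rfl
    · left; norm_num
    · right; norm_num
  rcases h2Y with h4 | h4
  · rw [h4] at hbig; omega
  · rw [h4] at h
    clear hdv hYm hup h3 h2' hYle hY h3Y
    interval_cases Y <;> omega

/-- `N = 4 Y^4` -/
lemma caseSG {γ δ : ℕ} (hδ : 1 ≤ δ) (hN : 2304 < 4 * (2 ^ γ * 3 ^ δ) ^ 4)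
    (hω : ω (4 * (2 ^ γ * 3 ^ δ) ^ 4 + 1) ≤ 2) (h5 : 5 ∣ 4 * (2 ^ γ * 3 ^ δ) ^ 4 + 1) :
    False := by
  set Y := 2 ^ γ * 3 ^ δ with hY
  have h3Y : Y % 3 = 0 := by
    obtain ⟨d', rfl⟩ : ∃ d', δ = d' + 1 := ⟨δ - 1, by omega⟩
    rw [hY, pow_succ]
    have : 2 ^ γ * (3 ^ d' * 3) = 3 * (2 ^ γ * 3 ^ d') := by ring
    omega
  have hY6 : 6 ≤ Y := by
    by_contra hcon
    have : Y ≤ 3 := by omega
    have : Y ^ 4 ≤ 3 ^ 4 := Nat.pow_le_pow_left this 4
    omega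
  obtain ⟨z, hz⟩ : ∃ z, Y = z + 1 := ⟨Y - 1, by omega⟩
  have hfac : 4 * Y ^ 4 + 1 = (2 * (Y * (Y - 1)) + 1) * (2 * (Y * (Y + 1)) + 1) := by
    rw [hz, Nat.add_sub_cancel]; ring
  rw [hfac] at hω h5
  have hu1 : 1 < 2 * (Y * (Y - 1)) + 1 := by
    have : 0 < Y * (Y - 1) := Nat.mul_pos (by omega) (by omega)
    omega
  have hv1 : 1 < 2 * (Y * (Y + 1)) + 1 := by
    have : 0 < Y * (Y + 1) := Nat.mul_pos (by omega) (by omega)
    omega
  have hcop : (2 * (Y * (Y - 1)) + 1).Coprime (2 * (Y * (Y + 1)) + 1) := by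
    rw [Nat.coprime_iff_gcd_eq_one]
    by_contra hne
    obtain ⟨q, hq, hqd⟩ := Nat.exists_prime_and_dvd hne
    have h1 : q ∣ 2 * (Y * (Y - 1)) + 1 := hqd.trans (Nat.gcd_dvd_left _ _)
    have h2 : q ∣ 2 * (Y * (Y + 1)) + 1 := hqd.trans (Nat.gcd_dvd_right _ _)
    rw [hz, Nat.add_sub_cancel] at h1
    rw [hz] at h2
    have h1z : (q : ℤ) ∣ 2 * (((z : ℤ) + 1) * z) + 1 := by exact_mod_cast h1
    have h2z : (q : ℤ) ∣ 2 * (((z : ℤ) + 1) * (z + 1 + 1)) + 1 := by exact_mod_cast h2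
    have h3z : (q : ℤ) ∣ 2 := by
      have : (2 : ℤ) = (2 * (((z : ℤ) + 1) * (z + 1 + 1)) + 1) * (1 - (z + 1)) +
          (2 * (((z : ℤ) + 1) * z) + 1) * (1 + (z + 1)) := by ring
      rw [this]
      exact dvd_add (h2z.mul_right _) (h1z.mul_right _)
    have h3 : q ∣ 2 := by exact_mod_cast h3z
    have hq3 := (Nat.prime_dvd_prime_iff_eq hq Nat.prime_two).mp h3
    subst hq3
    omega
  rcases (Nat.Prime.dvd_mul Nat.prime_five).mp h5 with h | h
  · obtain ⟨k, -, hk⟩ := pow_of_coprime_mul hu1 hv1 hcop hω Nat.prime_five h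
    exact SGeq hY hδ hY6 (Or.inl hk.symm)
  · rw [mul_comm] at hω
    obtain ⟨k, -, hk⟩ := pow_of_coprime_mul hv1 hu1 hcop.symm hω Nat.prime_five h
    exact SGeq hY hδ hY6 (Or.inr hk.symm)

/-- `2^a 3^b + 1` is not a square for `a ≥ 5`, `b ≥ 1`, except `288 + 1` -/
lemma not_sq {a b y : ℕ} (ha : 5 ≤ a) (hb : 1 ≤ b) (hN : 2304 < 2 ^ a * 3 ^ b)
    (h : 2 ^ a * 3 ^ b + 1 = y ^ 2) : False := by
  obtain ⟨a, rfl⟩ : ∃ a', a = a' + 2 := ⟨a - 2, by omega⟩
  have hyodd : y % 2 = 1 := by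
    have e : 2 ^ (a + 2) * 3 ^ b = 2 * (2 ^ (a + 1) * 3 ^ b) := by ring
    rcases Nat.mod_two_eq_zero_or_one y with h1 | h1
    · obtain ⟨w, rfl⟩ : ∃ w, y = 2 * w := ⟨y / 2, by omega⟩
      have : (2 * w) ^ 2 = 2 * (2 * w ^ 2) := by ring
      omega
    · exact h1
  obtain ⟨u, rfl⟩ : ∃ u, y = 2 * u + 1 := ⟨y / 2, by omega⟩
  have h' : 2 ^ a * 3 ^ b = u * (u + 1) := by
    have e : 2 ^ (a + 2) * 3 ^ b = 4 * (2 ^ a * 3 ^ b) := by ring
    have e2 : (2 * u + 1) ^ 2 = 4 * (u * (u + 1)) + 1 := by ring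
    omega
  have hc : u.Coprime (u + 1) := by simp
  have hu0 : 0 < u := by
    rcases Nat.eq_zero_or_pos u with h0 | h0
    · subst h0
      have : 0 < 2 ^ a * 3 ^ b := by positivity
      omega
    · exact h0
  have h2 : 2 ^ a ∣ u ∨ 2 ^ a ∣ u + 1 := by
    rw [← Nat.Coprime.isPrimePow_dvd_mul hc (Nat.prime_two.isPrimePow.pow (by omega)), ← h']
    exact dvd_mul_right _ _
  have h3 : 3 ^ b ∣ u ∨ 3 ^ b ∣ u + 1 := by
    rw [← Nat.Coprime.isPrimePow_dvd_mul hc (Nat.prime_three.isPrimePow.pow (by omega)), ← h']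
    exact dvd_mul_left _ _
  have hcop : (2 ^ a).Coprime (3 ^ b) := Nat.Coprime.pow _ _ (by norm_num)
  have hbig : 576 < u * (u + 1) := by
    rw [← h']
    have e : 2 ^ (a + 2) * 3 ^ b = 4 * (2 ^ a * 3 ^ b) := by ring
    omega
  have hu2 : 2 ≤ u := by
    by_contra hcon
    have : u = 1 := by omega
    subst this
    omega
  rcases h2 with h2 | h2 <;> rcases h3 with h3 | h3
  · have := Nat.le_of_dvd hu0 (hcop.mul_dvd_of_dvd_of_dvd h2 h3)
    rw [h'] at this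
    nlinarith
  · -- u = 2^a, u + 1 = 3^b
    obtain ⟨k, hk⟩ := h2
    obtain ⟨l, hl⟩ := h3
    have hkl : k * l = 1 := by
      rw [hl, hk] at h'
      have hpos : 0 < 2 ^ a * 3 ^ b := by positivity
      have : 2 ^ a * 3 ^ b * (k * l) = 2 ^ a * 3 ^ b * 1 := by
        rw [mul_one]; nth_rewrite 2 [h']; ring
      exact Nat.eq_of_mul_eq_mul_left hpos this
    have hk1 : k = 1 := Nat.eq_one_of_mul_eq_one_right hkl
    have hl1 : l = 1 := Nat.eq_one_of_mul_eq_one_left hkl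
    subst hk1 hl1
    rw [mul_one] at hk hl
    -- 3^b = 2^a + 1 with a ≥ 3
    have h4 : a = 3 ∨ 4 ≤ a := by omega
    rcases h4 with rfl | h4
    · norm_num at hk
      omega
    · have h16 : 3 ^ b % 16 = 1 := by
        obtain ⟨z, rfl⟩ := Nat.exists_eq_add_of_le h4
        rw [pow_add] at hk
        omega
      have hb4 : b % 4 = 0 := by
        have e : 3 ^ b % 16 = 3 ^ (b % 4) % 16 := per (k := 4) (by norm_num) b
        have key : ∀ r < 4, 3 ^ r % 16 = 1 → r = 0 := by decide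
        exact key (b % 4) (Nat.mod_lt _ (by norm_num)) (by rw [← e]; exact h16)
      have h5 : 3 ^ b % 5 = 1 := by
        rw [per (k := 4) (by norm_num), hb4]; rfl
      have : 5 ∣ 2 ^ a := by omega
      have := (Nat.prime_dvd_prime_iff_eq Nat.prime_five Nat.prime_two).mp
        (Nat.prime_five.dvd_of_dvd_pow this)
      omega
  · -- u + 1 = 2^a, u = 3^b
    obtain ⟨k, hk⟩ := h2
    obtain ⟨l, hl⟩ := h3
    have hkl : k * l = 1 := by
      rw [hk, hl] at h'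
      have hpos : 0 < 2 ^ a * 3 ^ b := by positivity
      have : 2 ^ a * 3 ^ b * (k * l) = 2 ^ a * 3 ^ b * 1 := by
        rw [mul_one]; nth_rewrite 2 [h']; ring
      exact Nat.eq_of_mul_eq_mul_left hpos this
    have hk1 : k = 1 := Nat.eq_one_of_mul_eq_one_right hkl
    have hl1 : l = 1 := Nat.eq_one_of_mul_eq_one_left hkl
    subst hk1 hl1
    rw [mul_one] at hk hl
    have h8 : (3 ^ b + 1) % 8 = 0 := by
      obtain ⟨z, hz⟩ := Nat.exists_eq_add_of_le (show 3 ≤ a by omega)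
      rw [hz, pow_add] at hk
      omega
    have e := pow3_mod8 b
    have h9 : b % 2 = 0 ∨ b % 2 = 1 := by omega
    rcases h9 with h9 | h9 <;> rw [h9] at e <;> norm_num at e <;> omega
  · have := Nat.le_of_dvd (by omega) (hcop.mul_dvd_of_dvd_of_dvd h2 h3)
    rw [h'] at this
    nlinarith

/-- `a = 3`, cube case -/
lemma caseA3 {c : ℕ} (hc : 2 ≤ c) (hω : ω (2 ^ 3 * 3 ^ (3 * c) + 1) ≤ 2)
    (h5 : 5 ∣ 2 ^ 3 * 3 ^ (3 * c) + 1) : False := by
  set z := 2 * 3 ^ c with hz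
  have e : 2 ^ 3 * 3 ^ (3 * c) = z ^ 3 := by
    rw [hz, mul_pow, ← pow_mul, mul_comm c 3]
  have hz1 : 18 ≤ z := by
    have : 3 ^ 2 ≤ 3 ^ c := Nat.pow_le_pow_right (by norm_num) hc
    omega
  have h3z : z % 3 = 0 := by
    obtain ⟨d', rfl⟩ : ∃ d', c = d' + 1 := ⟨c - 1, by omega⟩
    rw [hz, pow_succ]
    omega
  rw [e] at hω h5
  have hfac : z ^ 3 + 1 = (z + 1) * (z * (z - 1) + 1) := by
    obtain ⟨w, hw⟩ : ∃ w, z = w + 1 := ⟨z - 1, by omega⟩
    rw [hw, Nat.add_sub_cancel]; ring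
  have h5z : 5 ∣ z + 1 := by
    have h1 : (z ^ 3 + 1) % 5 = 0 := Nat.mod_eq_zero_of_dvd h5
    rw [Nat.add_mod, Nat.pow_mod] at h1
    have key : ∀ r < 5, (r ^ 3 % 5 + 1 % 5) % 5 = 0 → r = 4 := by decide
    have := key (z % 5) (Nat.mod_lt _ (by norm_num)) h1
    omega
  rw [hfac] at hω
  have hv1 : 1 < z * (z - 1) + 1 := by
    have : 0 < z * (z - 1) := Nat.mul_pos (by omega) (by omega)
    omega
  obtain ⟨k, -, hk⟩ := pow_of_coprime_mul (by omega) hv1 (cube_coprime h3z (by omega)) hω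
    Nat.prime_five h5z
  refine L1 (p := 5) (j := k) (x := 1) (y := c) (by tauto) hc ?_
  rw [← hk, hz]; ring

/-- final modular table for `5^i 7^j = 2·3^b + 1` -/
lemma tab1 : ∀ u < 4, ∀ v < 12, (5 ^ u * 7 ^ v) % 13 = 7 → (5 ^ u * 7 ^ v) % 16 = 7 →
    u = 0 ∧ v = 1 := by decide

/-- the modular conditions of the last case -/
def chk (u v w : ℕ) : Bool :=
  ((5 ^ (4 * u) % 11) * (7 ^ (12 * v + 1) % 11)) % 11 == (2 * (3 ^ (12 * w + 7) % 11) + 1) % 11 &&
  ((5 ^ (4 * u) % 31) * (7 ^ (12 * v + 1) % 31)) % 31 == (2 * (3 ^ (12 * w + 7) % 31) + 1) % 31 &&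
  ((5 ^ (4 * u) % 61) * (7 ^ (12 * v + 1) % 61)) % 61 == (2 * (3 ^ (12 * w + 7) % 61) + 1) % 61 &&
  ((5 ^ (4 * u) % 41) * (7 ^ (12 * v + 1) % 41)) % 41 == (2 * (3 ^ (12 * w + 7) % 41) + 1) % 41 &&
  (2 * (3 ^ (12 * w + 7) % 11) + 3) % 11 != 0 &&
  (2 * (3 ^ (12 * w + 7) % 11) + 4) % 11 != 0

lemma tab2' : ((List.range 15).all fun u => (List.range 10).all fun v =>
    (List.range 10).all fun w => !(chk u v w)) = true := by
  decide +kernel

lemma tab2 (u v w : ℕ) (hu : u < 15) (hv : v < 10) (hw : w < 10)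
    (h1 : ((5 ^ (4 * u) % 11) * (7 ^ (12 * v + 1) % 11)) % 11 =
      (2 * (3 ^ (12 * w + 7) % 11) + 1) % 11)
    (h2 : ((5 ^ (4 * u) % 31) * (7 ^ (12 * v + 1) % 31)) % 31 =
      (2 * (3 ^ (12 * w + 7) % 31) + 1) % 31)
    (h3 : ((5 ^ (4 * u) % 61) * (7 ^ (12 * v + 1) % 61)) % 61 =
      (2 * (3 ^ (12 * w + 7) % 61) + 1) % 61)
    (h4 : ((5 ^ (4 * u) % 41) * (7 ^ (12 * v + 1) % 41)) % 41 =
      (2 * (3 ^ (12 * w + 7) % 41) + 1) % 41)
    (h5 : (2 * (3 ^ (12 * w + 7) % 11) + 3) % 11 ≠ 0)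
    (h6 : (2 * (3 ^ (12 * w + 7) % 11) + 4) % 11 ≠ 0) : False := by
  have h := tab2'
  rw [List.all_eq_true] at h
  have h' := h u (List.mem_range.mpr hu)
  rw [List.all_eq_true] at h'
  have h'' := h' v (List.mem_range.mpr hv)
  rw [List.all_eq_true] at h''
  have h3' := h'' w (List.mem_range.mpr hw)
  have : chk u v w = true := by
    unfold chk
    rw [h1, h2, h3, h4]
    simp only [beq_self_eq_true, Bool.true_and, Bool.and_eq_true, bne_iff_ne]
    exact ⟨h5, h6⟩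
  rw [this] at h3'
  exact absurd h3' (by decide)

/-- mod-`m` form of `5^i 7^j = 2·3^b + 1` -/
lemma redm {i j b m k l : ℕ} (h : 5 ^ i * 7 ^ j = 2 * 3 ^ b + 1) (h5 : 5 ^ k % m = 1 % m)
    (h7 : 7 ^ l % m = 1 % m) (h3 : 3 ^ l % m = 1 % m) :
    ((5 ^ (i % k) % m) * (7 ^ (j % l) % m)) % m = (2 * (3 ^ (b % l) % m) + 1) % m := by
  rw [← per h5, ← per h7, ← per h3, ← Nat.mul_mod, h, Nat.add_mod (2 * (3 ^ b % m)),
    Nat.mul_mod_mod, ← Nat.add_mod]

lemma k11_3 {b : ℕ} (hb : 3 ≤ b) (h3 : ω (2 * 3 ^ b + 3) ≤ 2) : ¬ 11 ∣ 2 * 3 ^ b + 3 := by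
  intro hd
  have h33 : 3 ∣ 2 * 3 ^ b + 3 :=
    Nat.dvd_add ((dvd_pow_self 3 (by omega)).mul_left _) dvd_rfl
  obtain ⟨k, l, hk, hl, he⟩ := two_primes (Nat.succ_ne_zero _) Nat.prime_three
    (by norm_num : Nat.Prime 11) (by norm_num) h33 hd h3
  clear h3 hd h33
  obtain ⟨k, rfl⟩ : ∃ k', k = k' + 1 := ⟨k - 1, by omega⟩
  obtain ⟨c, rfl⟩ : ∃ c, b = c + 2 := ⟨b - 2, by omega⟩
  have e1 : 2 * 3 ^ (c + 2) + 3 = 3 * (2 * 3 ^ (c + 1) + 1) := by ring
  have e2 : 3 ^ (k + 1) * 11 ^ l = 3 * (3 ^ k * 11 ^ l) := by ring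
  have e3 : 3 ^ k * 11 ^ l = 2 * 3 ^ (c + 1) + 1 := by omega
  have hk0 : k = 0 := by
    by_contra hc
    obtain ⟨k', rfl⟩ : ∃ k', k = k' + 1 := ⟨k - 1, by omega⟩
    have e4 : 3 ^ (k' + 1) * 11 ^ l = 3 * (3 ^ k' * 11 ^ l) := by ring
    have e5 : 3 ^ (c + 1) = 3 * 3 ^ c := by ring
    omega
  subst hk0
  rw [pow_zero, one_mul] at e3
  exact L1 (p := 11) (j := l) (x := 1) (y := c + 1) (by tauto) (by omega) (by rw [e3]; ring)

lemma k11_4 {b : ℕ} (hb : b % 12 = 7) (h4 : ω (2 * 3 ^ b + 4) ≤ 2) : ¬ 11 ∣ 2 * 3 ^ b + 4 := by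
  intro hd
  have h22 : 2 ∣ 2 * 3 ^ b + 4 := Nat.dvd_add (dvd_mul_right _ _) (by norm_num)
  obtain ⟨k, l, hk, hl, he⟩ := two_primes (Nat.succ_ne_zero _) Nat.prime_two
    (by norm_num : Nat.Prime 11) (by norm_num) h22 hd h4
  clear h4 hd h22
  obtain ⟨k, rfl⟩ : ∃ k', k = k' + 1 := ⟨k - 1, by omega⟩
  have e2 : 2 ^ (k + 1) * 11 ^ l = 2 * (2 ^ k * 11 ^ l) := by ring
  have e3 : 2 ^ k * 11 ^ l = 3 ^ b + 2 := by omega
  have hodd3 : 3 ^ b % 2 = 1 := by rw [Nat.pow_mod]; norm_num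
  have hk0 : k = 0 := by
    by_contra hc
    obtain ⟨k', rfl⟩ : ∃ k', k = k' + 1 := ⟨k - 1, by omega⟩
    have e4 : 2 ^ (k' + 1) * 11 ^ l = 2 * (2 ^ k' * 11 ^ l) := by ring
    omega
  subst hk0
  rw [pow_zero] at e3
  have t1 := red1 (m := 9) (k := 6) (c := 2) e3 (by norm_num) (by omega) (by norm_num)
  have hl6 : l % 6 = 1 := by
    have key : ∀ r < 6, (1 * (11 ^ r % 9)) % 9 = 2 % 9 → r = 1 := by decide
    exact key (l % 6) (Nat.mod_lt _ (by norm_num)) t1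
  have t2 := red (m := 7) (k := 6) (l := 6) e3 (by norm_num) (by norm_num)
  rw [hl6] at t2
  have hb6 : b % 6 = 1 := by omega
  rw [hb6] at t2
  norm_num at t2

/-- `a = 1`, `b ≡ 7 mod 12` -/
lemma caseA1 {b : ℕ} (hb : b % 12 = 7)
    (h1 : ω (2 * 3 ^ b + 1) ≤ 2) (h3 : ω (2 * 3 ^ b + 3) ≤ 2)
    (h4 : ω (2 * 3 ^ b + 4) ≤ 2) (h5 : 5 ∣ 2 * 3 ^ b + 1) (h7 : 7 ∣ 2 * 3 ^ b + 1) :
    False := by
  obtain ⟨i, j, -, -, h⟩ := two_primes (Nat.succ_ne_zero _) Nat.prime_five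
    (by norm_num : Nat.Prime 7) (by norm_num) h5 h7 h1
  clear h1 h5 h7
  have k3 := k11_3 (by clear h3 h4; omega) h3
  clear h3
  have k4 := k11_4 hb h4
  clear h4
  -- the equation modulo 13 and 16
  have s1 := redm (m := 13) (k := 4) (l := 12) h.symm (by norm_num) (by norm_num) (by norm_num)
  have s2 := redm (m := 16) (k := 4) (l := 12) h.symm (by norm_num) (by norm_num) (by norm_num)
  rw [hb] at s1 s2
  have hij := tab1 (i % 4) (Nat.mod_lt _ (by norm_num)) (j % 12) (Nat.mod_lt _ (by norm_num))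
    (by rw [Nat.mul_mod, s1]; rfl) (by rw [Nat.mul_mod, s2]; rfl)
  obtain ⟨u, hu⟩ : ∃ u, i % 60 = 4 * u := ⟨i % 60 / 4, by omega⟩
  obtain ⟨v, hv⟩ : ∃ v, j % 120 = 12 * v + 1 := ⟨j % 120 / 12, by omega⟩
  obtain ⟨w, hw⟩ : ∃ w, b % 120 = 12 * w + 7 := ⟨b % 120 / 12, by omega⟩
  have r1 := redm (m := 11) (k := 60) (l := 120) h.symm (by norm_num) (by norm_num) (by norm_num)
  have r2 := redm (m := 31) (k := 60) (l := 120) h.symm (by norm_num) (by norm_num) (by norm_num)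
  have r3 := redm (m := 61) (k := 60) (l := 120) h.symm (by norm_num) (by norm_num) (by norm_num)
  have r4 := redm (m := 41) (k := 60) (l := 120) h.symm (by norm_num) (by norm_num) (by norm_num)
  rw [hu, hv, hw] at r1 r2 r3 r4
  have e3b : 3 ^ b % 11 = 3 ^ (b % 120) % 11 := per (k := 120) (by norm_num) b
  rw [hw] at e3b
  refine tab2 u v w (by omega) (by omega) (by omega) r1 r2 r3 r4 ?_ ?_
  · rw [← e3b]; omega
  · rw [← e3b]; omega

lemma even_of_mod32 : ∀ u < 8, ∀ v < 4, (5 ^ u * 7 ^ v) % 32 = 1 → u % 2 = 0 ∧ v % 2 = 0 := by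
  decide

/-- case `N ≡ 4 mod 5`, `N ≡ 6 mod 7`, `a ≥ 5` -/
lemma caseA5 {a b : ℕ} (ha : 5 ≤ a) (hb : 1 ≤ b) (hN : 2304 < 2 ^ a * 3 ^ b)
    (h1 : ω (2 ^ a * 3 ^ b + 1) ≤ 2) (h5 : 5 ∣ 2 ^ a * 3 ^ b + 1) (h7 : 7 ∣ 2 ^ a * 3 ^ b + 1) :
    False := by
  obtain ⟨i, j, hi, hj, h⟩ := two_primes (by omega) Nat.prime_five (by norm_num : Nat.Prime 7)
    (by norm_num) h5 h7 h1
  have h32 : (2 ^ a * 3 ^ b + 1) % 32 = 1 := by
    obtain ⟨z, rfl⟩ := Nat.exists_eq_add_of_le ha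
    rw [pow_add]
    have : 2 ^ 5 * 2 ^ z * 3 ^ b + 1 = 32 * (2 ^ z * 3 ^ b) + 1 := by ring
    omega
  rw [h, Nat.mul_mod, per (k := 8) (by norm_num) i, per (k := 4) (by norm_num) j,
    ← Nat.mul_mod] at h32
  have := even_of_mod32 (i % 8) (Nat.mod_lt _ (by norm_num)) (j % 4) (Nat.mod_lt _ (by norm_num))
    h32
  obtain ⟨i', rfl⟩ : ∃ i', i = 2 * i' := ⟨i / 2, by omega⟩
  obtain ⟨j', rfl⟩ : ∃ j', j = 2 * j' := ⟨j / 2, by omega⟩
  refine not_sq ha hb hN (y := 5 ^ i' * 7 ^ j') ?_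
  rw [h]; ring

/-- surviving residues -/
def Q (r s n5 n7 n13 : ℕ) : Prop :=
  n5 = 4 ∧ (
    (r % 4 = 2 ∧ s % 4 = 0) ∨
    (r = 4 ∧ s = 6) ∨
    (r % 2 = 0 ∧ s % 2 = 0 ∧ n7 = 1) ∨
    (r % 2 = 0 ∧ s % 2 = 0 ∧ n13 = 1) ∨
    (r % 2 = 1 ∧ n7 = 6 ∧ (r ≠ 1 ∨ s = 7) ∧ (r ≠ 3 ∨ s = 9)))

instance (r s n5 n7 n13 : ℕ) : Decidable (Q r s n5 n7 n13) := by
  unfold Q; infer_instance

lemma tabN : ∀ r < 12, ∀ s < 12, (2 ^ r * 3 ^ s) % 5 = 3 ∨ (2 ^ r * 3 ^ s) % 5 = 2 ∨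
    (2 ^ r * 3 ^ s) % 5 = 1 ∨ (2 ^ r * 3 ^ s) % 7 = 5 ∨ (2 ^ r * 3 ^ s) % 7 = 4 ∨
    (2 ^ r * 3 ^ s) % 7 = 3 ∨ (2 ^ r * 3 ^ s) % 13 = 11 ∨ (2 ^ r * 3 ^ s) % 13 = 10 ∨
    (2 ^ r * 3 ^ s) % 13 = 9 ∨
    Q r s ((2 ^ r * 3 ^ s) % 5) ((2 ^ r * 3 ^ s) % 7) ((2 ^ r * 3 ^ s) % 13) := by
  decide +kernel

lemma no_mod {N m c p : ℕ} (h : ¬ p ∣ N + c) (hm : m + c = p) : N % p ≠ m := by
  intro h1
  apply h
  subst hm
  rcases Nat.eq_zero_or_pos (m + c) with h0 | h0
  · have : m = 0 ∧ c = 0 := by omega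
    rw [this.1, this.2] at h1 ⊢
    simp at h1
    simp [h1]
  · have h2 : N = (m + c) * (N / (m + c)) + m := by
      conv_lhs => rw [← Nat.div_add_mod N (m + c), h1]
    rw [h2]
    exact ⟨N / (m + c) + 1, by ring⟩

/-- what is left after the primes 5, 7, 13 -/
lemma residues {a b : ℕ} (ha : 1 ≤ a) (hb : 1 ≤ b) (hN : 2304 < 2 ^ a * 3 ^ b)
    (h2 : ω (2 ^ a * 3 ^ b + 2) ≤ 2) (h3 : ω (2 ^ a * 3 ^ b + 3) ≤ 2)
    (h4 : ω (2 ^ a * 3 ^ b + 4) ≤ 2) :
    (2 ^ a * 3 ^ b) % 5 = 4 ∧ (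
    (a % 12 % 4 = 2 ∧ b % 12 % 4 = 0) ∨
    (a % 12 = 4 ∧ b % 12 = 6) ∨
    (a % 12 % 2 = 0 ∧ b % 12 % 2 = 0 ∧ (2 ^ a * 3 ^ b) % 7 = 1) ∨
    (a % 12 % 2 = 0 ∧ b % 12 % 2 = 0 ∧ (2 ^ a * 3 ^ b) % 13 = 1) ∨
    (a % 12 % 2 = 1 ∧ (2 ^ a * 3 ^ b) % 7 = 6 ∧ (a % 12 ≠ 1 ∨ b % 12 = 7) ∧
      (a % 12 ≠ 3 ∨ b % 12 = 9))) := by
  have e5 : (2 ^ a * 3 ^ b) % 5 = (2 ^ (a % 12) * 3 ^ (b % 12)) % 5 :=
    per2 (by norm_num) (by norm_num) a b
  have e7 : (2 ^ a * 3 ^ b) % 7 = (2 ^ (a % 12) * 3 ^ (b % 12)) % 7 :=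
    per2 (by norm_num) (by norm_num) a b
  have e13 : (2 ^ a * 3 ^ b) % 13 = (2 ^ (a % 12) * 3 ^ (b % 12)) % 13 :=
    per2 (by norm_num) (by norm_num) a b
  have hp5 : (5 = 5 ∨ 5 = 7 ∨ 5 = 13) := Or.inl rfl
  have hp7 : (7 = 5 ∨ 7 = 7 ∨ 7 = 13) := Or.inr (Or.inl rfl)
  have hp13 : (13 = 5 ∨ 13 = 7 ∨ 13 = 13) := Or.inr (Or.inr rfl)
  have T := tabN (a % 12) (Nat.mod_lt _ (by norm_num)) (b % 12) (Nat.mod_lt _ (by norm_num))
  rw [← e5, ← e7, ← e13] at T
  rcases T with T | T | T | T | T | T | T | T | T | T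
  · exact (no_mod (kill2 hp5 ha hb hN h2) rfl T).elim
  · exact (no_mod (kill3 hp5 ha hb hN h3) rfl T).elim
  · exact (no_mod (kill4 hp5 ha hb hN h4) rfl T).elim
  · exact (no_mod (kill2 hp7 ha hb hN h2) rfl T).elim
  · exact (no_mod (kill3 hp7 ha hb hN h3) rfl T).elim
  · exact (no_mod (kill4 hp7 ha hb hN h4) rfl T).elim
  · exact (no_mod (kill2 hp13 ha hb hN h2) rfl T).elim
  · exact (no_mod (kill3 hp13 ha hb hN h3) rfl T).elim
  · exact (no_mod (kill4 hp13 ha hb hN h4) rfl T).elim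
  · exact T

lemma main {a b : ℕ} (ha : 1 ≤ a) (hb : 1 ≤ b) (hN : 2304 < 2 ^ a * 3 ^ b)
    (hm : ω (2 ^ a * 3 ^ b - 1) ≤ 2) (h1 : ω (2 ^ a * 3 ^ b + 1) ≤ 2)
    (h2 : ω (2 ^ a * 3 ^ b + 2) ≤ 2) (h3 : ω (2 ^ a * 3 ^ b + 3) ≤ 2)
    (h4 : ω (2 ^ a * 3 ^ b + 4) ≤ 2) : False := by
  obtain ⟨t5, T⟩ := residues ha hb hN h2 h3 h4
  have d5 : 5 ∣ 2 ^ a * 3 ^ b + 1 := by clear hm h1 h2 h3 h4; omega
  rcases T with ⟨r4, s4⟩ | ⟨r4, s6⟩ | ⟨r2, s2, t7⟩ | ⟨r2, s2, t13⟩ | ⟨r1, t7, q1, q3⟩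
  · -- Sophie Germain
    clear hm h2 h3 h4
    obtain ⟨γ, rfl⟩ : ∃ γ, a = 4 * γ + 2 := ⟨a / 4, by clear h1; omega⟩
    obtain ⟨δ, rfl⟩ : ∃ δ, b = 4 * δ := ⟨b / 4, by clear h1; omega⟩
    have e : 2 ^ (4 * γ + 2) * 3 ^ (4 * δ) = 4 * (2 ^ γ * 3 ^ δ) ^ 4 := by
      rw [mul_pow, ← pow_mul, ← pow_mul, pow_add, mul_comm γ 4, mul_comm δ 4]; ring
    rw [e] at hN h1 d5
    exact caseSG (by clear h1; omega) hN h1 d5
  · clear hm h1 h3 h4
    obtain ⟨c, rfl⟩ : ∃ c, a = 3 * c + 1 := ⟨a / 3, by clear h2; omega⟩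
    obtain ⟨d, rfl⟩ : ∃ d, b = 3 * d := ⟨b / 3, by clear h2; omega⟩
    exact caseCube (by clear h2; omega) (by clear h2; omega) h2
  · clear h1 h2 h3 h4
    obtain ⟨c, rfl⟩ : ∃ c, a = 2 * c := ⟨a / 2, by clear hm; omega⟩
    obtain ⟨d, rfl⟩ : ∃ d, b = 2 * d := ⟨b / 2, by clear hm; omega⟩
    exact caseSq (p := 7) (by tauto) (by clear hm; omega) (by clear hm; omega) hN hm
      (by clear hm; omega)
  · clear h1 h2 h3 h4
    obtain ⟨c, rfl⟩ : ∃ c, a = 2 * c := ⟨a / 2, by clear hm; omega⟩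
    obtain ⟨d, rfl⟩ : ∃ d, b = 2 * d := ⟨b / 2, by clear hm; omega⟩
    exact caseSq (p := 13) (by tauto) (by clear hm; omega) (by clear hm; omega) hN hm
      (by clear hm; omega)
  · clear hm h2
    have d7 : 7 ∣ 2 ^ a * 3 ^ b + 1 := by clear h1 h3 h4; omega
    rcases Nat.lt_or_ge a 5 with ha5 | ha5
    · have : a = 1 ∨ a = 3 := by clear h1 h3 h4; omega
      rcases this with rfl | rfl
      · have hb7 : b % 12 = 7 := by clear h1 h3 h4; omega
        rw [pow_one] at h1 h3 h4 d5 d7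
        exact caseA1 hb7 h1 h3 h4 d5 d7
      · clear h3 h4
        obtain ⟨c, rfl⟩ : ∃ c, b = 3 * c := ⟨b / 3, by clear h1; omega⟩
        exact caseA3 (by clear h1; omega) h1 d5
    · exact caseA5 ha5 hb hN h1 d5 d7

/-! ### small cases -/

lemma om_le_two {m p q : ℕ} (k : ℕ) (_hm : m ≠ 0) (hp : p.Prime) (hq : q.Prime)
    (h : m ∣ (p * q) ^ k) : ω m ≤ 2 := by
  rw [omega_card]
  have hs : m.primeFactors ⊆ ({p, q} : Finset ℕ) := by
    intro r hr
    rw [Nat.mem_primeFactors] at hr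
    have h1 := hr.1.dvd_of_dvd_pow (hr.2.1.trans h)
    rw [Finset.mem_insert, Finset.mem_singleton]
    rcases (Nat.Prime.dvd_mul hr.1).mp h1 with h2 | h2
    · left; exact (Nat.prime_dvd_prime_iff_eq hr.1 hp).mp h2
    · right; exact (Nat.prime_dvd_prime_iff_eq hr.1 hq).mp h2
  exact (Finset.card_le_card hs).trans Finset.card_le_two

/-- remove the prime `p` from `m` (with fuel) -/
def strip (p : ℕ) : ℕ → ℕ → ℕ
  | 0, m => m
  | f + 1, m => if m % p = 0 then strip p f (m / p) else m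

/-- test for three distinct prime factors, two of them being `p` and `q` -/
def has3pq (m p q : ℕ) : Bool :=
  m % p == 0 && m % q == 0 && p != q && Nat.ble 2 (strip p 12 (strip q 12 m)) &&
    m % (strip p 12 (strip q 12 m)) == 0 && (strip p 12 (strip q 12 m)) % p != 0 &&
    (strip p 12 (strip q 12 m)) % q != 0

def sp : List ℕ := [2, 3, 5, 7, 11, 13, 17, 19, 23, 29, 31]

lemma sp_prime : ∀ p ∈ sp, p.Prime := by
  intro p hp
  simp only [sp, List.mem_cons, List.not_mem_nil, or_false] at hp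
  rcases hp with rfl | rfl | rfl | rfl | rfl | rfl | rfl | rfl | rfl | rfl | rfl <;> norm_num

def has3 (m : ℕ) : Bool := sp.any fun p => sp.any fun q => has3pq m p q

lemma has3_spec {m : ℕ} (hm : m ≠ 0) (h : has3 m = true) : 3 ≤ ω m := by
  unfold has3 at h
  rw [List.any_eq_true] at h
  obtain ⟨p, hp, h⟩ := h
  rw [List.any_eq_true] at h
  obtain ⟨q, hq, h⟩ := h
  unfold has3pq at h
  generalize strip p 12 (strip q 12 m) = c at h
  simp only [Bool.and_eq_true, beq_iff_eq, bne_iff_ne, Nat.ble_eq] at h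
  obtain ⟨⟨⟨⟨⟨⟨h1, h2⟩, h3⟩, h4⟩, h5⟩, h6⟩, h7⟩ := h
  obtain ⟨r, hr, hrc⟩ := Nat.exists_prime_and_dvd (show c ≠ 1 by omega)
  refine three_primes hm (sp_prime p hp) (sp_prime q hq) hr h3 ?_ ?_
    (Nat.dvd_of_mod_eq_zero h1) (Nat.dvd_of_mod_eq_zero h2)
    (hrc.trans (Nat.dvd_of_mod_eq_zero h5))
  · rintro rfl; exact h6 (Nat.mod_eq_zero_of_dvd hrc)
  · rintro rfl; exact h7 (Nat.mod_eq_zero_of_dvd hrc)

/-- the exceptional set -/
def exc : List ℕ := [5, 11, 17, 23, 35, 47, 53, 71, 95, 143, 323, 2303]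

lemma small_ok : ((List.range 384).all fun k => exc.contains (6 * k + 5) ||
    (List.range 6).any fun i => has3 (6 * k + 5 + i)) = true := by
  decide +kernel

lemma exc_le_two : ∀ n ∈ exc, ∀ i < 6, ω (n + i) ≤ 2 := by
  intro n hn i hi
  simp only [exc, List.mem_cons, List.not_mem_nil, or_false] at hn
  rcases hn with rfl | rfl | rfl | rfl | rfl | rfl | rfl | rfl | rfl | rfl | rfl | rfl <;>
    interval_cases i
  · exact om_le_two (m := 5) (p := 5) (q := 2) 1 (by norm_num) (by norm_num) (by norm_num) (by norm_num)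
  · exact om_le_two (m := 6) (p := 2) (q := 3) 1 (by norm_num) (by norm_num) (by norm_num) (by norm_num)
  · exact om_le_two (m := 7) (p := 7) (q := 2) 1 (by norm_num) (by norm_num) (by norm_num) (by norm_num)
  · exact om_le_two (m := 8) (p := 2) (q := 3) 3 (by norm_num) (by norm_num) (by norm_num) (by norm_num)
  · exact om_le_two (m := 9) (p := 3) (q := 2) 2 (by norm_num) (by norm_num) (by norm_num) (by norm_num)
  · exact om_le_two (m := 10) (p := 2) (q := 5) 1 (by norm_num) (by norm_num) (by norm_num) (by norm_num)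
  · exact om_le_two (m := 11) (p := 11) (q := 2) 1 (by norm_num) (by norm_num) (by norm_num) (by norm_num)
  · exact om_le_two (m := 12) (p := 2) (q := 3) 2 (by norm_num) (by norm_num) (by norm_num) (by norm_num)
  · exact om_le_two (m := 13) (p := 13) (q := 2) 1 (by norm_num) (by norm_num) (by norm_num) (by norm_num)
  · exact om_le_two (m := 14) (p := 2) (q := 7) 1 (by norm_num) (by norm_num) (by norm_num) (by norm_num)
  · exact om_le_two (m := 15) (p := 3) (q := 5) 1 (by norm_num) (by norm_num) (by norm_num) (by norm_num)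
  · exact om_le_two (m := 16) (p := 2) (q := 3) 4 (by norm_num) (by norm_num) (by norm_num) (by norm_num)
  · exact om_le_two (m := 17) (p := 17) (q := 2) 1 (by norm_num) (by norm_num) (by norm_num) (by norm_num)
  · exact om_le_two (m := 18) (p := 2) (q := 3) 2 (by norm_num) (by norm_num) (by norm_num) (by norm_num)
  · exact om_le_two (m := 19) (p := 19) (q := 2) 1 (by norm_num) (by norm_num) (by norm_num) (by norm_num)
  · exact om_le_two (m := 20) (p := 2) (q := 5) 2 (by norm_num) (by norm_num) (by norm_num) (by norm_num)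
  · exact om_le_two (m := 21) (p := 3) (q := 7) 1 (by norm_num) (by norm_num) (by norm_num) (by norm_num)
  · exact om_le_two (m := 22) (p := 2) (q := 11) 1 (by norm_num) (by norm_num) (by norm_num) (by norm_num)
  · exact om_le_two (m := 23) (p := 23) (q := 2) 1 (by norm_num) (by norm_num) (by norm_num) (by norm_num)
  · exact om_le_two (m := 24) (p := 2) (q := 3) 3 (by norm_num) (by norm_num) (by norm_num) (by norm_num)
  · exact om_le_two (m := 25) (p := 5) (q := 2) 2 (by norm_num) (by norm_num) (by norm_num) (by norm_num)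
  · exact om_le_two (m := 26) (p := 2) (q := 13) 1 (by norm_num) (by norm_num) (by norm_num) (by norm_num)
  · exact om_le_two (m := 27) (p := 3) (q := 2) 3 (by norm_num) (by norm_num) (by norm_num) (by norm_num)
  · exact om_le_two (m := 28) (p := 2) (q := 7) 2 (by norm_num) (by norm_num) (by norm_num) (by norm_num)
  · exact om_le_two (m := 35) (p := 5) (q := 7) 1 (by norm_num) (by norm_num) (by norm_num) (by norm_num)
  · exact om_le_two (m := 36) (p := 2) (q := 3) 2 (by norm_num) (by norm_num) (by norm_num) (by norm_num)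
  · exact om_le_two (m := 37) (p := 37) (q := 2) 1 (by norm_num) (by norm_num) (by norm_num) (by norm_num)
  · exact om_le_two (m := 38) (p := 2) (q := 19) 1 (by norm_num) (by norm_num) (by norm_num) (by norm_num)
  · exact om_le_two (m := 39) (p := 3) (q := 13) 1 (by norm_num) (by norm_num) (by norm_num) (by norm_num)
  · exact om_le_two (m := 40) (p := 2) (q := 5) 3 (by norm_num) (by norm_num) (by norm_num) (by norm_num)
  · exact om_le_two (m := 47) (p := 47) (q := 2) 1 (by norm_num) (by norm_num) (by norm_num) (by norm_num)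
  · exact om_le_two (m := 48) (p := 2) (q := 3) 4 (by norm_num) (by norm_num) (by norm_num) (by norm_num)
  · exact om_le_two (m := 49) (p := 7) (q := 2) 2 (by norm_num) (by norm_num) (by norm_num) (by norm_num)
  · exact om_le_two (m := 50) (p := 2) (q := 5) 2 (by norm_num) (by norm_num) (by norm_num) (by norm_num)
  · exact om_le_two (m := 51) (p := 3) (q := 17) 1 (by norm_num) (by norm_num) (by norm_num) (by norm_num)
  · exact om_le_two (m := 52) (p := 2) (q := 13) 2 (by norm_num) (by norm_num) (by norm_num) (by norm_num)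
  · exact om_le_two (m := 53) (p := 53) (q := 2) 1 (by norm_num) (by norm_num) (by norm_num) (by norm_num)
  · exact om_le_two (m := 54) (p := 2) (q := 3) 3 (by norm_num) (by norm_num) (by norm_num) (by norm_num)
  · exact om_le_two (m := 55) (p := 5) (q := 11) 1 (by norm_num) (by norm_num) (by norm_num) (by norm_num)
  · exact om_le_two (m := 56) (p := 2) (q := 7) 3 (by norm_num) (by norm_num) (by norm_num) (by norm_num)
  · exact om_le_two (m := 57) (p := 3) (q := 19) 1 (by norm_num) (by norm_num) (by norm_num) (by norm_num)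
  · exact om_le_two (m := 58) (p := 2) (q := 29) 1 (by norm_num) (by norm_num) (by norm_num) (by norm_num)
  · exact om_le_two (m := 71) (p := 71) (q := 2) 1 (by norm_num) (by norm_num) (by norm_num) (by norm_num)
  · exact om_le_two (m := 72) (p := 2) (q := 3) 3 (by norm_num) (by norm_num) (by norm_num) (by norm_num)
  · exact om_le_two (m := 73) (p := 73) (q := 2) 1 (by norm_num) (by norm_num) (by norm_num) (by norm_num)
  · exact om_le_two (m := 74) (p := 2) (q := 37) 1 (by norm_num) (by norm_num) (by norm_num) (by norm_num)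
  · exact om_le_two (m := 75) (p := 3) (q := 5) 2 (by norm_num) (by norm_num) (by norm_num) (by norm_num)
  · exact om_le_two (m := 76) (p := 2) (q := 19) 2 (by norm_num) (by norm_num) (by norm_num) (by norm_num)
  · exact om_le_two (m := 95) (p := 5) (q := 19) 1 (by norm_num) (by norm_num) (by norm_num) (by norm_num)
  · exact om_le_two (m := 96) (p := 2) (q := 3) 5 (by norm_num) (by norm_num) (by norm_num) (by norm_num)
  · exact om_le_two (m := 97) (p := 97) (q := 2) 1 (by norm_num) (by norm_num) (by norm_num) (by norm_num)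
  · exact om_le_two (m := 98) (p := 2) (q := 7) 2 (by norm_num) (by norm_num) (by norm_num) (by norm_num)
  · exact om_le_two (m := 99) (p := 3) (q := 11) 2 (by norm_num) (by norm_num) (by norm_num) (by norm_num)
  · exact om_le_two (m := 100) (p := 2) (q := 5) 2 (by norm_num) (by norm_num) (by norm_num) (by norm_num)
  · exact om_le_two (m := 143) (p := 11) (q := 13) 1 (by norm_num) (by norm_num) (by norm_num) (by norm_num)
  · exact om_le_two (m := 144) (p := 2) (q := 3) 4 (by norm_num) (by norm_num) (by norm_num) (by norm_num)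
  · exact om_le_two (m := 145) (p := 5) (q := 29) 1 (by norm_num) (by norm_num) (by norm_num) (by norm_num)
  · exact om_le_two (m := 146) (p := 2) (q := 73) 1 (by norm_num) (by norm_num) (by norm_num) (by norm_num)
  · exact om_le_two (m := 147) (p := 3) (q := 7) 2 (by norm_num) (by norm_num) (by norm_num) (by norm_num)
  · exact om_le_two (m := 148) (p := 2) (q := 37) 2 (by norm_num) (by norm_num) (by norm_num) (by norm_num)
  · exact om_le_two (m := 323) (p := 17) (q := 19) 1 (by norm_num) (by norm_num) (by norm_num) (by norm_num)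
  · exact om_le_two (m := 324) (p := 2) (q := 3) 4 (by norm_num) (by norm_num) (by norm_num) (by norm_num)
  · exact om_le_two (m := 325) (p := 5) (q := 13) 2 (by norm_num) (by norm_num) (by norm_num) (by norm_num)
  · exact om_le_two (m := 326) (p := 2) (q := 163) 1 (by norm_num) (by norm_num) (by norm_num) (by norm_num)
  · exact om_le_two (m := 327) (p := 3) (q := 109) 1 (by norm_num) (by norm_num) (by norm_num) (by norm_num)
  · exact om_le_two (m := 328) (p := 2) (q := 41) 3 (by norm_num) (by norm_num) (by norm_num) (by norm_num)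
  · exact om_le_two (m := 2303) (p := 7) (q := 47) 2 (by norm_num) (by norm_num) (by norm_num) (by norm_num)
  · exact om_le_two (m := 2304) (p := 2) (q := 3) 8 (by norm_num) (by norm_num) (by norm_num) (by norm_num)
  · exact om_le_two (m := 2305) (p := 5) (q := 461) 1 (by norm_num) (by norm_num) (by norm_num) (by norm_num)
  · exact om_le_two (m := 2306) (p := 2) (q := 1153) 1 (by norm_num) (by norm_num) (by norm_num) (by norm_num)
  · exact om_le_two (m := 2307) (p := 3) (q := 769) 1 (by norm_num) (by norm_num) (by norm_num) (by norm_num)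
  · exact om_le_two (m := 2308) (p := 2) (q := 577) 2 (by norm_num) (by norm_num) (by norm_num) (by norm_num)

/-- **Theorem.** Let `n ≡ 5 (mod 6)`. One of `n, n+1, …, n+5` has at least three distinct prime
factors, unless `n` is one of twelve numbers, the largest being `2303`. -/
theorem five_mod_six (n : ℕ) (hn : n % 6 = 5) :
    (∃ m ∈ Finset.Ico n (n + 6), 3 ≤ ω m) ↔
      n ∉ ({5, 11, 17, 23, 35, 47, 53, 71, 95, 143, 323, 2303} : Finset ℕ) := by
  have hexc : ∀ k : ℕ, k ∈ exc ↔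
      k ∈ ({5, 11, 17, 23, 35, 47, 53, 71, 95, 143, 323, 2303} : Finset ℕ) := by
    intro k
    simp [exc]
  constructor
  · rintro ⟨m, hm, h3⟩ hmem
    rw [← hexc] at hmem
    rw [Finset.mem_Ico] at hm
    have := exc_le_two n hmem (m - n) (by omega)
    rw [show n + (m - n) = m by omega] at this
    omega
  · intro hmem
    rcases Nat.lt_or_ge n 2304 with hlt | hge
    · have h := small_ok
      rw [List.all_eq_true] at h
      have h' := h (n / 6) (List.mem_range.mpr (by omega))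
      rw [show 6 * (n / 6) + 5 = n by omega, Bool.or_eq_true] at h'
      rcases h' with h' | h'
      · rw [List.contains_iff_mem] at h'
        exact absurd ((hexc n).mp h') hmem
      · rw [List.any_eq_true] at h'
        obtain ⟨i, hi, h3⟩ := h'
        rw [List.mem_range] at hi
        exact ⟨n + i, Finset.mem_Ico.mpr ⟨by omega, by omega⟩, has3_spec (by omega) h3⟩
    · by_contra hcon
      have hle : ∀ i < 6, ω (n + i) ≤ 2 := by
        intro i hi
        by_contra h3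
        exact hcon ⟨n + i, Finset.mem_Ico.mpr ⟨by omega, by omega⟩, by omega⟩
      have g0 := hle 0 (by norm_num)
      have g1 := hle 1 (by norm_num)
      have g2 := hle 2 (by norm_num)
      have g3 := hle 3 (by norm_num)
      have g4 := hle 4 (by norm_num)
      have g5 := hle 5 (by norm_num)
      clear hle hcon
      obtain ⟨a, b, ha, hb, hab⟩ := two_primes (m := n + 1) (by clear g0 g1 g2 g3 g4 g5; omega)
        Nat.prime_two Nat.prime_three (by norm_num)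
        (by clear g0 g1 g2 g3 g4 g5; omega) (by clear g0 g1 g2 g3 g4 g5; omega) g1
      refine main ha hb (by clear g0 g1 g2 g3 g4 g5; omega) ?_ ?_ ?_ ?_ ?_
      · rw [← hab]; exact g0
      · rw [← hab]; exact g2
      · rw [← hab]; exact g3
      · rw [← hab]; exact g4
      · rw [← hab]; exact g5

end Pool.Agent.Helper90.FiveModSix
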