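import Mathlib

namespace Pool.Agent.Helper38

noncomputable section

section T1

/-- T1a: topological sorting of a finite acyclic relation -/
lemma exists_topo {V : Type} [Fintype V] (arrow : V → V → Prop)
    (h : ∀ v, ¬ Relation.TransGen arrow v v) :
    ∃ rk : V → ℕ, Function.Injective rk ∧ ∀ i j, arrow i j → rk i < rk j := by
  classical
  let r0 : V → ℕ := fun v => (Finset.univ.filter fun w => Relation.TransGen arrow w v).card
  have h0 : ∀ i j, arrow i j → r0 i < r0 j := by
    intro i j hij
    apply Finset.card_lt_card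
    rw [Finset.ssubset_iff_of_subset]
    · refine ⟨i, ?_, ?_⟩
      · simpa using Relation.TransGen.single hij
      · simpa using h i
    · intro w hw
      simp only [Finset.mem_filter, Finset.mem_univ, true_and] at hw ⊢
      exact hw.tail hij
  let e := Fintype.equivFin V
  refine ⟨fun v => r0 v * Fintype.card V + (e v : ℕ), ?_, ?_⟩
  · intro u v huv
    simp only at huv
    have hu := (e u).2
    have hv := (e v).2
    have h1 : (r0 u * Fintype.card V + (e u : ℕ)) % Fintype.card V = (e u : ℕ) := by
      rw [Nat.mul_comm, Nat.mul_add_mod, Nat.mod_eq_of_lt hu]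
    have h2 : (r0 v * Fintype.card V + (e v : ℕ)) % Fintype.card V = (e v : ℕ) := by
      rw [Nat.mul_comm, Nat.mul_add_mod, Nat.mod_eq_of_lt hv]
    rw [huv, h2] at h1
    exact e.injective (Fin.ext h1.symm)
  · intro i j hij
    have h1 := h0 i j hij
    have hi := (e i).2
    calc r0 i * Fintype.card V + (e i : ℕ) < r0 i * Fintype.card V + Fintype.card V := by omega
      _ = (r0 i + 1) * Fintype.card V := by ring
      _ ≤ r0 j * Fintype.card V := Nat.mul_le_mul_right _ h1
      _ ≤ _ := Nat.le_add_right _ _

/-- T1b: an orientation of a forest has no directed cycle -/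
lemma forest_acyclic {V : Type} [Fintype V] (G : SimpleGraph V) (hG : G.IsAcyclic)
    (arrow : V → V → Prop) (h1 : ∀ i j, arrow i j → G.Adj i j)
    (h2 : ∀ i j, arrow i j → ¬ arrow j i) (v : V) : ¬ Relation.TransGen arrow v v := by
  intro hv
  obtain ⟨w, hvw, hwv⟩ := Relation.TransGen.head'_iff.mp hv
  have hb := SimpleGraph.isAcyclic_iff_forall_adj_isBridge.mp hG (h1 _ _ hvw)
  rw [SimpleGraph.isBridge_iff] at hb
  apply hb
  have key : ∀ x, Relation.ReflTransGen arrow x v →
      (G.deleteEdges {s(v, w)}).Reachable x v := by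
    intro x hx
    induction hx using Relation.ReflTransGen.head_induction_on with
    | refl => exact SimpleGraph.Reachable.refl _
    | @head x y hxy _ ih =>
      by_cases he : s(x, y) = s(v, w)
      · rw [Sym2.eq_iff] at he
        rcases he with ⟨rfl, rfl⟩ | ⟨rfl, rfl⟩
        · exact SimpleGraph.Reachable.refl _
        · exact absurd hxy (h2 _ _ hvw)
      · refine SimpleGraph.Reachable.trans (SimpleGraph.Adj.reachable ?_) ih
        rw [SimpleGraph.deleteEdges_adj]
        exact ⟨h1 _ _ hxy, he⟩
  exact (key w hwv).symm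

/-- The tree with vertices `0, ..., n-1`: a path `0 - 1 - ... - (n-2)` with the vertex `n-1`
attached to the vertex `b`. -/
def branchGraph (n b : ℕ) : SimpleGraph (Fin n) :=
  SimpleGraph.fromRel fun i j =>
    ((j : ℕ) = i + 1 ∧ (j : ℕ) + 1 < n) ∨ ((i : ℕ) = b ∧ (j : ℕ) + 1 = n)

/-- a graph in which every vertex has at most one smaller neighbour is acyclic -/
lemma acyclic_of_unique_smaller {n : ℕ} (G : SimpleGraph (Fin n))
    (h : ∀ i j k : Fin n, G.Adj i k → G.Adj j k → i < k → j < k → i = j) : G.IsAcyclic := by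
  intro v c hc
  classical
  obtain ⟨u, hu, hmax⟩ := c.support.toFinset.exists_max_image id
    ⟨v, by simp⟩
  simp only [List.mem_toFinset, id_eq] at hu hmax
  set c' := c.rotate u hu with hc'
  have hcyc : c'.IsCycle := by rw [hc']; simpa using hc
  have hmem : ∀ w, w ∈ c'.support → w ≤ u := by
    intro w hw
    apply hmax
    rw [hc', SimpleGraph.Walk.mem_support_rotate_iff] at hw
    exact hw
  have hnil := hcyc.not_nil
  have a1 : G.Adj u c'.snd := c'.adj_snd hnil
  have a2 : G.Adj c'.penultimate u := c'.adj_penultimate hnil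
  have m1 : c'.snd ∈ c'.support := SimpleGraph.Walk.getVert_mem_support _ _
  have m2 : c'.penultimate ∈ c'.support := SimpleGraph.Walk.getVert_mem_support _ _
  apply hcyc.snd_ne_penultimate
  exact h _ _ u a1.symm a2 (lt_of_le_of_ne (hmem _ m1) a1.ne') (lt_of_le_of_ne (hmem _ m2) a2.ne)

/-- T1c: it is acyclic when `b < n - 1` -/
lemma branchGraph_acyclic (n b : ℕ) (h : b + 1 < n) : (branchGraph n b).IsAcyclic := by
  apply acyclic_of_unique_smaller
  intro i j k hi hj hik hjk
  simp only [branchGraph, SimpleGraph.fromRel_adj] at hi hj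
  apply Fin.ext
  have := i.2
  have := j.2
  have := k.2
  rw [Fin.lt_def] at hik hjk
  omega

end T1

end

end Pool.Agent.Helper38
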