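import Mathlib
import Pool.Agent.Helper38.QDefs
import Pool.Agent.Helper38.KDeg

open MvPolynomial Module

namespace Pool.Agent.Helper38

noncomputable section

section T2

variable {V A : Type} [Fintype V] [DecidableEq V] [Fintype A] [DecidableEq A]
  (tail head : A → V) (e : V → ℕ)

/-- row label -/
def rw' (x : Coord tail head e) : Root e := ⟨head x.1, x.2.1⟩
/-- column label -/
def cl' (x : Coord tail head e) : Root e := ⟨tail x.1, x.2.2⟩

/-- infinitesimal action of an elementary matrix: the row `p` is replaced by the row `q`, and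
minus the column `q` is replaced by the column `p` -/
def glD (p q : Root e) : Der ℂ (Coord tail head e) :=
  vf fun x => (∑ y : Coord tail head e, if y.1 = x.1 ∧ rw' tail head e x = p ∧
      rw' tail head e y = q ∧ cl' tail head e y = cl' tail head e x then MvPolynomial.X y else 0) -
    ∑ y : Coord tail head e, if y.1 = x.1 ∧ rw' tail head e y = rw' tail head e x ∧
      cl' tail head e x = q ∧ cl' tail head e y = p then MvPolynomial.X y else 0

/-- the point of affine space attached to a representation -/
def pt (φ : Rep tail head e) : Coord tail head e → ℂ := fun x => φ x.1 x.2.1 x.2.2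

variable {tail head e}

omit [Fintype V] [DecidableEq V] [Fintype A] [DecidableEq A] in
lemma mem_orbitIdeal {φ : Rep tail head e} {f : MvPolynomial (Coord tail head e) ℂ} :
    f ∈ orbitIdeal tail head e φ ↔ ∀ g : (i : V) → GL (Fin (e i)) ℂ,
      eval (pt tail head e (actRep tail head e g φ)) f = 0 := Iff.rfl

omit [Fintype V] [DecidableEq V] [Fintype A] [DecidableEq A] in
lemma actRep_mul (g h : (i : V) → GL (Fin (e i)) ℂ) (φ : Rep tail head e) :
    actRep tail head e (g * h) φ = actRep tail head e g (actRep tail head e h φ) := by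
  funext a
  simp only [actRep, Pi.mul_apply, mul_inv_rev, Units.val_mul, Matrix.mul_assoc]

variable (tail head e)

omit [Fintype V] [DecidableEq V] [Fintype A] [DecidableEq A] in
/-- T2a -/
lemma orbit_ne_top (φ : Rep tail head e) : orbitIdeal tail head e φ ≠ ⊤ := by
  intro h
  rw [Ideal.eq_top_iff_one, mem_orbitIdeal] at h
  have := h 1
  rw [map_one] at this
  exact one_ne_zero this

variable {tail head e}

/-- the elementary nilpotent matrix at each vertex -/
def nil (p q : Root e) (k : V) : Matrix (Fin (e k)) (Fin (e k)) ℂ :=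
  fun r c => if (⟨k, r⟩ : Root e) = p ∧ (⟨k, c⟩ : Root e) = q then 1 else 0

omit [Fintype V] in
lemma nil_sq {p q : Root e} (hpq : p ≠ q) (k : V) : nil p q k * nil p q k = 0 := by
  ext r c
  rw [Matrix.mul_apply, Matrix.zero_apply]
  apply Finset.sum_eq_zero
  intro m _
  simp only [nil]
  split_ifs with h1 h2
  · exact absurd (h2.1.symm.trans h1.2) hpq
  · simp
  · simp
  · simp

omit [Fintype V] in
lemma nil_sq' {p q : Root e} (hpq : p ≠ q) (t : ℂ) (k : V) :
    (t • nil p q k) * (t • nil p q k) = 0 := by
  rw [Matrix.smul_mul, Matrix.mul_smul, nil_sq hpq, smul_zero, smul_zero]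

/-- the one-parameter unipotent group -/
def uni {p q : Root e} (hpq : p ≠ q) (t : ℂ) (k : V) : GL (Fin (e k)) ℂ where
  val := 1 + t • nil p q k
  inv := 1 - t • nil p q k
  val_inv := by
    have h := nil_sq' (t := t) hpq k
    generalize t • nil p q k = N at h ⊢
    have : (1 + N) * (1 - N) = 1 - N * N := by noncomm_ring
    rw [this, h, sub_zero]
  inv_val := by
    have h := nil_sq' (t := t) hpq k
    generalize t • nil p q k = N at h ⊢
    have : (1 - N) * (1 + N) = 1 - N * N := by noncomm_ring
    rw [this, h, sub_zero]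

/-- first order variation -/
def dmat (p q : Root e) (φ : Rep tail head e) : Rep tail head e :=
  fun a => nil p q (head a) * φ a - φ a * nil p q (tail a)

/-- second order variation -/
def ddmat (p q : Root e) (φ : Rep tail head e) : Rep tail head e :=
  fun a => nil p q (head a) * φ a * nil p q (tail a)

omit [Fintype V] [Fintype A] [DecidableEq A] in
lemma actRep_uni {p q : Root e} (hpq : p ≠ q) (t : ℂ) (φ : Rep tail head e) (a : A) :
    actRep tail head e (uni hpq t) φ a =
      φ a + t • dmat p q φ a - (t ^ 2) • ddmat p q φ a := by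
  have h1 : ((uni hpq t (head a) : GL (Fin (e (head a))) ℂ) : Matrix _ _ ℂ) =
      1 + t • nil p q (head a) := rfl
  have h2 : (((uni hpq t (tail a))⁻¹ : GL (Fin (e (tail a))) ℂ) : Matrix _ _ ℂ) =
      1 - t • nil p q (tail a) := rfl
  rw [actRep, h1, h2, dmat, ddmat]
  generalize nil p q (head a) = N1
  generalize nil p q (tail a) = N2
  generalize φ a = M
  rw [Matrix.add_mul, Matrix.mul_sub, Matrix.one_mul, Matrix.mul_one, Matrix.add_mul,
    Matrix.mul_smul, Matrix.mul_smul, Matrix.smul_mul, Matrix.smul_mul, smul_smul, smul_sub,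
    ← pow_two]
  abel

omit [Fintype V] [DecidableEq V] [DecidableEq A] in
lemma sum_coord (x : Coord tail head e) (P : Coord tail head e → Prop) [DecidablePred P]
    (v : Coord tail head e → ℂ) (hP : ∀ y, P y → y.1 = x.1) :
    (∑ y : Coord tail head e, if P y then v y else 0) =
      ∑ r : Fin (e (head x.1)), ∑ c : Fin (e (tail x.1)),
        if P ⟨x.1, r, c⟩ then v ⟨x.1, r, c⟩ else 0 := by
  rw [Fintype.sum_sigma, Finset.sum_eq_single x.1]
  · rw [Fintype.sum_prod_type]
  · intro a _ ha
    apply Finset.sum_eq_zero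
    intro y _
    rw [if_neg]
    intro h
    exact ha (hP _ h)
  · intro h
    exact absurd (Finset.mem_univ _) h

omit [Fintype V] in
lemma eval_glD_X {p q : Root e} (φ : Rep tail head e) (x : Coord tail head e) :
    eval (pt tail head e φ) (glD tail head e p q (MvPolynomial.X x)) =
      pt tail head e (dmat p q φ) x := by
  classical
  rw [glD, vf_X, map_sub, map_sum, map_sum]
  simp only [apply_ite (eval (pt tail head e φ)), eval_X, map_zero]
  rw [sum_coord x _ _ (fun y h => h.1), sum_coord x _ _ (fun y h => h.1)]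
  obtain ⟨a, r, c⟩ := x
  simp only [pt, dmat, Matrix.sub_apply, Matrix.mul_apply, rw', cl', nil]
  congr 1
  · apply Finset.sum_congr rfl
    intro m _
    rw [Finset.sum_eq_single c]
    · simp only [true_and, and_true]
      split_ifs <;> simp
    · intro c' _ hc'
      rw [if_neg]
      rintro ⟨-, -, -, h⟩
      apply hc'
      simpa using h
    · intro h
      exact absurd (Finset.mem_univ _) h
  · rw [Finset.sum_comm]
    apply Finset.sum_congr rfl
    intro m _
    rw [Finset.sum_eq_single r]
    · simp only [true_and]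
      by_cases h1 : (⟨tail a, m⟩ : Root e) = p <;> by_cases h2 : (⟨tail a, c⟩ : Root e) = q <;>
        simp [h1, h2]
    · intro r' _ hr'
      rw [if_neg]
      rintro ⟨-, h, -, -⟩
      apply hr'
      simpa using h
    · intro h
      exact absurd (Finset.mem_univ _) h

/-- the curve as polynomials in one variable -/
def curve (p q : Root e) (φ : Rep tail head e) :
    MvPolynomial (Coord tail head e) ℂ →ₐ[ℂ] Polynomial ℂ :=
  aeval fun x => Polynomial.C (pt tail head e φ x) +
    Polynomial.X * Polynomial.C (pt tail head e (dmat p q φ) x) -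
    Polynomial.X ^ 2 * Polynomial.C (pt tail head e (ddmat p q φ) x)

omit [Fintype V] [Fintype A] [DecidableEq A] in
lemma eval_curve {p q : Root e} (hpq : p ≠ q) (φ : Rep tail head e) (t : ℂ)
    (f : MvPolynomial (Coord tail head e) ℂ) :
    Polynomial.eval t (curve p q φ f) =
      eval (pt tail head e (actRep tail head e (uni hpq t) φ)) f := by
  induction f using MvPolynomial.induction_on with
  | C a => simp [curve]
  | add f g hf hg => rw [map_add, Polynomial.eval_add, hf, hg, map_add]
  | mul_X f x hf =>
    rw [map_mul, Polynomial.eval_mul, hf, map_mul]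
    congr 1
    simp only [curve, aeval_X, eval_X]
    have h := actRep_uni hpq t φ x.1
    simp only [pt, h, Matrix.sub_apply, Matrix.add_apply, Matrix.smul_apply, smul_eq_mul]
    simp
    ring

omit [Fintype V] in
lemma deriv_curve {p q : Root e} (φ : Rep tail head e)
    (f : MvPolynomial (Coord tail head e) ℂ) :
    Polynomial.eval 0 (curve p q φ f) = eval (pt tail head e φ) f ∧
    Polynomial.eval 0 (Polynomial.derivative (curve p q φ f)) =
      eval (pt tail head e φ) (glD tail head e p q f) := by
  classical
  induction f using MvPolynomial.induction_on with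
  | C a =>
    have h1 : glD tail head e p q (C a : MvPolynomial (Coord tail head e) ℂ) = 0 := by
      have := (glD tail head e p q).map_algebraMap a
      rwa [MvPolynomial.algebraMap_eq] at this
    rw [h1]
    constructor
    · simp [curve]
    · simp [curve]
  | add f g hf hg =>
    refine ⟨?_, ?_⟩
    · rw [map_add, Polynomial.eval_add, hf.1, hg.1, map_add]
    · rw [map_add, map_add, Polynomial.eval_add, hf.2, hg.2, map_add, map_add]
  | mul_X f x hf =>
    have hx : curve p q φ (MvPolynomial.X x) = Polynomial.C (pt tail head e φ x) +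
        Polynomial.X * Polynomial.C (pt tail head e (dmat p q φ) x) -
        Polynomial.X ^ 2 * Polynomial.C (pt tail head e (ddmat p q φ) x) := by
      simp only [curve, aeval_X]
    refine ⟨?_, ?_⟩
    · rw [map_mul, Polynomial.eval_mul, hf.1, map_mul, hx]
      simp
    · rw [map_mul, Polynomial.derivative_mul, Polynomial.eval_add, Polynomial.eval_mul,
        Polynomial.eval_mul, hf.1, hf.2, (glD tail head e p q).leibniz, map_add]
      simp only [smul_eq_mul, map_mul]
      rw [eval_glD_X, hx]
      simp
      ring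

variable (tail head e)

omit [Fintype V] in
/-- T2b: differentiate along `1 + t E_{pq}` -/
lemma orbit_stab (φ : Rep tail head e) (p q : Root e) (hpq : p ≠ q) (_h : p.1 = q.1) :
    Stab (glD tail head e p q : MvPolynomial (Coord tail head e) ℂ →ₗ[ℂ] _)
      (orbitIdeal tail head e φ) := by
  intro f hf
  rw [mem_orbitIdeal] at hf ⊢
  intro g
  change eval _ (glD tail head e p q f) = 0
  rw [← (deriv_curve (actRep tail head e g φ) f).2]
  have h0 : curve p q (actRep tail head e g φ) f = 0 := by
    apply Polynomial.funext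
    intro t
    rw [eval_curve hpq, ← actRep_mul, Polynomial.eval_zero]
    exact hf _
  rw [h0]
  simp

variable {tail head e}

/-- the torus -/
def tor (τ : Root e → ℂˣ) (k : V) : GL (Fin (e k)) ℂ where
  val := Matrix.diagonal fun r => (τ ⟨k, r⟩ : ℂ)
  inv := Matrix.diagonal fun r => (((τ ⟨k, r⟩)⁻¹ : ℂˣ) : ℂ)
  val_inv := by
    rw [Matrix.diagonal_mul_diagonal, ← Matrix.diagonal_one]
    congr 1
    funext r
    simp
  inv_val := by
    rw [Matrix.diagonal_mul_diagonal, ← Matrix.diagonal_one]
    congr 1
    funext r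
    simp

/-- characters of the torus -/
def chr (μ : Root e → ℤ) : (Root e → ℂˣ) →* ℂ where
  toFun τ := ((∏ y, τ y ^ μ y : ℂˣ) : ℂ)
  map_one' := by simp
  map_mul' τ τ' := by
    rw [← Units.val_mul, ← Finset.prod_mul_distrib]
    congr 2
    funext y
    rw [Pi.mul_apply, mul_zpow]

omit [DecidableEq V] in
lemma chr_add (μ ν : Root e → ℤ) (τ : Root e → ℂˣ) : chr (μ + ν) τ = chr μ τ * chr ν τ := by
  change ((∏ y, τ y ^ (μ y + ν y) : ℂˣ) : ℂ) = ((∏ y, τ y ^ μ y : ℂˣ) : ℂ) *
    ((∏ y, τ y ^ ν y : ℂˣ) : ℂ)
  rw [← Units.val_mul, ← Finset.prod_mul_distrib]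
  congr 2
  funext y
  rw [zpow_add]

omit [DecidableEq V] in
lemma chr_zero (τ : Root e → ℂˣ) : chr (0 : Root e → ℤ) τ = 1 := by
  change ((∏ y, τ y ^ (0 : ℤ) : ℂˣ) : ℂ) = 1
  simp

omit [DecidableEq V] in
lemma chr_nsmul (n : ℕ) (μ : Root e → ℤ) (τ : Root e → ℂˣ) : chr (n • μ) τ = chr μ τ ^ n := by
  induction n with
  | zero => rw [zero_smul, chr_zero, pow_zero]
  | succ n ih => rw [succ_nsmul, chr_add, ih, pow_succ]

lemma chr_single (y : Root e) (c : ℤ) (τ : Root e → ℂˣ) :
    chr (Pi.single y c) τ = ((τ y ^ c : ℂˣ) : ℂ) := by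
  change ((∏ z, τ z ^ (Pi.single y c : Root e → ℤ) z : ℂˣ) : ℂ) = _
  rw [Finset.prod_eq_single y]
  · rw [Pi.single_eq_same]
  · intro z _ hz
    rw [Pi.single_eq_of_ne hz, zpow_zero]
  · intro h
    exact absurd (Finset.mem_univ _) h

lemma chr_injective : Function.Injective (chr : (Root e → ℤ) → ((Root e → ℂˣ) →* ℂ)) := by
  intro μ ν h
  funext y
  have h1 := DFunLike.congr_fun h (Pi.mulSingle y (Units.mk0 (2 : ℂ) two_ne_zero))
  have key : ∀ μ : Root e → ℤ, chr μ (Pi.mulSingle y (Units.mk0 (2 : ℂ) two_ne_zero)) =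
      (2 : ℂ) ^ (μ y) := by
    intro μ
    change ((∏ z, (Pi.mulSingle y (Units.mk0 (2 : ℂ) two_ne_zero) : Root e → ℂˣ) z ^ μ z : ℂˣ) : ℂ)
      = _
    rw [Finset.prod_eq_single y]
    · rw [Pi.mulSingle_eq_same, Units.val_zpow_eq_zpow_val, Units.val_mk0]
    · intro z _ hz
      rw [Pi.mulSingle_eq_of_ne hz, one_zpow]
    · intro h
      exact absurd (Finset.mem_univ _) h
  rw [key, key] at h1
  have h2 : (2 : ℝ) ^ (μ y) = (2 : ℝ) ^ (ν y) := by
    have := congrArg (fun z : ℂ => ‖z‖) h1
    simpa using this
  exact zpow_right_injective₀ (by norm_num) (by norm_num) h2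

omit [Fintype A] [DecidableEq A] in
lemma chr_coordWeight (x : Coord tail head e) (τ : Root e → ℂˣ) :
    chr (coordWeight tail head e x) τ =
      (τ ⟨head x.1, x.2.1⟩ : ℂ) * (((τ ⟨tail x.1, x.2.2⟩)⁻¹ : ℂˣ) : ℂ) := by
  rw [coordWeight, sub_eq_add_neg, ← Pi.single_neg, chr_add, chr_single, chr_single, zpow_one,
    zpow_neg_one]

omit [Fintype A] [DecidableEq A] in
lemma pt_tor (τ : Root e → ℂˣ) (φ : Rep tail head e) (x : Coord tail head e) :
    pt tail head e (actRep tail head e (tor τ) φ) x =
      chr (coordWeight tail head e x) τ * pt tail head e φ x := by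
  rw [chr_coordWeight]
  change (Matrix.diagonal (fun r => (τ ⟨head x.1, r⟩ : ℂ)) * φ x.1 *
    Matrix.diagonal (fun r => (((τ ⟨tail x.1, r⟩)⁻¹ : ℂˣ) : ℂ))) x.2.1 x.2.2 = _
  rw [Matrix.mul_diagonal, Matrix.diagonal_mul, pt]
  ring

omit [Fintype A] in
lemma eval_tor (τ : Root e → ℂˣ) (φ : Rep tail head e) {μ : Root e → ℤ}
    {f : MvPolynomial (Coord tail head e) ℂ}
    (hf : IsWeightedHomogeneous (coordWeight tail head e) f μ) :
    eval (pt tail head e (actRep tail head e (tor τ) φ)) f =
      chr μ τ * eval (pt tail head e φ) f := by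
  rw [eval_eq, eval_eq, Finset.mul_sum]
  apply Finset.sum_congr rfl
  intro d hd
  have h1 : (d.support.sum fun i => d i • coordWeight tail head e i) = μ := by
    have := hf (mem_support_iff.mp hd)
    rwa [Finsupp.weight_apply, Finsupp.sum] at this
  have h2 : ∀ s : Finset (Coord tail head e),
      (∏ i ∈ s, pt tail head e (actRep tail head e (tor τ) φ) i ^ d i) =
      chr (∑ i ∈ s, d i • coordWeight tail head e i) τ * ∏ i ∈ s, pt tail head e φ i ^ d i := by
    classical
    intro s
    induction s using Finset.induction_on with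
    | empty => simp [chr_zero]
    | insert a s ha ih =>
      rw [Finset.prod_insert ha, Finset.prod_insert ha, Finset.sum_insert ha, ih, chr_add,
        chr_nsmul, pt_tor, mul_pow]
      ring
  rw [h2, h1]
  ring

variable (tail head e)

/-- T2c: homogeneity from the torus action -/
lemma orbit_homog (φ : Rep tail head e) :
    IsHomog (coordWeight tail head e) (orbitIdeal tail head e φ) := by
  classical
  intro f hf μ
  rw [mem_orbitIdeal] at hf ⊢
  intro g
  set w := coordWeight tail head e with hw
  set ψ := actRep tail head e g φ with hψ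
  have hfin := weightedHomogeneousComponent_finsupp (w := w) f
  have hsum : f = ∑ ν ∈ hfin.toFinset, weightedHomogeneousComponent w ν f := by
    conv_lhs => rw [← sum_weightedHomogeneousComponent w f]
    rw [finsum_eq_sum _ hfin]
  have h0 : ∀ τ : Root e → ℂˣ, ∑ ν ∈ hfin.toFinset,
      eval (pt tail head e ψ) (weightedHomogeneousComponent w ν f) * chr ν τ = 0 := by
    intro τ
    have h1 := hf (tor τ * g)
    rw [actRep_mul, ← hψ] at h1
    rw [hsum, map_sum] at h1
    rw [← h1]
    apply Finset.sum_congr rfl
    intro ν _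
    rw [eval_tor τ ψ (weightedHomogeneousComponent_isWeightedHomogeneous ν f), mul_comm]
  by_cases hμ : μ ∈ hfin.toFinset
  · have hli := (linearIndependent_monoidHom (Root e → ℂˣ) ℂ).comp chr
      (chr_injective (e := e))
    have := linearIndependent_iff'.mp hli hfin.toFinset
      (fun ν => eval (pt tail head e ψ) (weightedHomogeneousComponent w ν f)) (by
        funext τ
        rw [Finset.sum_apply]
        exact h0 τ) μ hμ
    exact this
  · have : weightedHomogeneousComponent w μ f = 0 := by
      by_contra h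
      exact hμ (hfin.mem_toFinset.mpr h)
    rw [this, map_zero]

end T2

end

end Pool.Agent.Helper38
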