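import Mathlib

/-!
# Definitions: sets in which no element divides two others
-/

open Finset

namespace Pool.Agent.Helper90.NoTwoMultiples

/-- no element of `A` divides two other elements of `A` -/
def Admissible (A : Finset ℕ) : Prop :=
  ∀ a ∈ A, ∀ b ∈ A, ∀ c ∈ A, a ≠ b → a ≠ c → b ≠ c → ¬ (a ∣ b ∧ a ∣ c)

/-- largest cardinality of an admissible subset of `S` -/
noncomputable def maxAdm (S : Finset ℕ) : ℕ :=
  sSup {k : ℕ | ∃ A : Finset ℕ, A ⊆ S ∧ Admissible A ∧ A.card = k}

/-- `f n` is the largest cardinality of an admissible subset of `[1,n]` -/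
noncomputable def f (n : ℕ) : ℕ := maxAdm (Icc 1 n)

/-- `h y t` is the largest cardinality of an admissible set of `y`-smooth numbers
(all prime factors `< y`) contained in the interval `(t/y, t]` -/
noncomputable def h (y t : ℕ) : ℕ :=
  maxAdm ((Icc 1 t).filter fun s => s ∈ Nat.smoothNumbers y ∧ t < s * y)

end Pool.Agent.Helper90.NoTwoMultiples
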