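import Mathlib
import Pool.Agent.Helper90.NoTwoMultiplesDefs

/-!
# The limit of f(n)/n exists
-/

open Finset Filter Topology

namespace Pool.Agent.Helper90.NoTwoMultiples

lemma bdd (S : Finset ℕ) :
    BddAbove {k : ℕ | ∃ A : Finset ℕ, A ⊆ S ∧ Admissible A ∧ A.card = k} := by
  refine ⟨S.card, ?_⟩
  rintro k ⟨A, hA, -, rfl⟩
  exact card_le_card hA

lemma nonempty_set (S : Finset ℕ) :
    {k : ℕ | ∃ A : Finset ℕ, A ⊆ S ∧ Admissible A ∧ A.card = k}.Nonempty := by
  refine ⟨0, ∅, by simp, ?_, by simp⟩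
  intro a ha
  simp at ha

lemma exists_max (S : Finset ℕ) : ∃ A : Finset ℕ, A ⊆ S ∧ Admissible A ∧ A.card = maxAdm S :=
  Nat.sSup_mem (nonempty_set S) (bdd S)

lemma le_maxAdm {S A : Finset ℕ} (h1 : A ⊆ S) (h2 : Admissible A) : A.card ≤ maxAdm S :=
  le_csSup (bdd S) ⟨A, h1, h2, rfl⟩

lemma Admissible.subset {A B : Finset ℕ} (hB : Admissible B) (h : A ⊆ B) : Admissible A :=
  fun a ha b hb c hc => hB a (h ha) b (h hb) c (h hc)

lemma maxAdm_le_card (S : Finset ℕ) : maxAdm S ≤ S.card := by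
  obtain ⟨A, hA, -, h⟩ := exists_max S
  rw [← h]
  exact card_le_card hA

lemma maxAdm_mono {S T : Finset ℕ} (h : S ⊆ T) : maxAdm S ≤ maxAdm T := by
  obtain ⟨A, hA, hA2, h3⟩ := exists_max S
  rw [← h3]
  exact le_maxAdm (hA.trans h) hA2

lemma maxAdm_le_add {S T R : Finset ℕ} (h : S ⊆ T ∪ R) : maxAdm S ≤ maxAdm T + R.card := by
  obtain ⟨A, hA, hA2, h3⟩ := exists_max S
  have h4 : A.filter (· ∈ T) ⊆ T := by
    intro x hx
    exact (mem_filter.mp hx).2
  have h5 : A.filter (· ∉ T) ⊆ R := by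
    intro x hx
    rw [mem_filter] at hx
    have := h (hA hx.1)
    rw [mem_union] at this
    tauto
  have h6 := le_maxAdm h4 (hA2.subset (filter_subset _ _))
  have h7 := card_le_card h5
  have h8 : (A.filter (· ∈ T)).card + (A.filter (· ∉ T)).card = A.card :=
    card_filter_add_card_filter_not (s := A) (p := (· ∈ T))
  omega

/-- scaling -/
lemma admissible_div {A : Finset ℕ} (hA : Admissible A) {a : ℕ} (ha : a ≠ 0)
    (hd : ∀ x ∈ A, a ∣ x) : Admissible (A.image (· / a)) ∧ (A.image (· / a)).card = A.card := by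
  constructor
  · intro x hx y hy z hz hxy hxz hyz
    rw [mem_image] at hx hy hz
    obtain ⟨x', hx', rfl⟩ := hx
    obtain ⟨y', hy', rfl⟩ := hy
    obtain ⟨z', hz', rfl⟩ := hz
    obtain ⟨x, rfl⟩ := hd _ hx'
    obtain ⟨y, rfl⟩ := hd _ hy'
    obtain ⟨z, rfl⟩ := hd _ hz'
    have hp : 0 < a := Nat.pos_of_ne_zero ha
    simp only [Nat.mul_div_cancel_left _ hp] at hxy hxz hyz ⊢
    rintro ⟨h1, h2⟩
    refine hA _ hx' _ hy' _ hz' ?_ ?_ ?_ ⟨mul_dvd_mul_left a h1, mul_dvd_mul_left a h2⟩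
    · intro h; exact hxy (Nat.eq_of_mul_eq_mul_left hp h)
    · intro h; exact hxz (Nat.eq_of_mul_eq_mul_left hp h)
    · intro h; exact hyz (Nat.eq_of_mul_eq_mul_left hp h)
  · apply card_image_of_injOn
    intro x hx y hy h
    obtain ⟨x, rfl⟩ := hd _ hx
    obtain ⟨y, rfl⟩ := hd _ hy
    have hp : 0 < a := Nat.pos_of_ne_zero ha
    simp only [Nat.mul_div_cancel_left _ hp] at h
    rw [h]

/-- decomposition of a positive integer into a part coprime to `M = ∏ p ∈ P, p` and a `P`-factored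
part. -/
lemma exists_decomp (P : Finset ℕ) (hP : ∀ p ∈ P, p.Prime) (m : ℕ) (hm : m ≠ 0) :
    ∃ a s : ℕ, (∏ p ∈ P, p).Coprime a ∧ s ∈ Nat.factoredNumbers P ∧ m = a * s := by
  induction m using Nat.recOnMul with
  | zero => exact absurd rfl hm
  | one => exact ⟨1, 1, by simp, by simp [Nat.mem_factoredNumbers], by simp⟩
  | prime p hp =>
    by_cases h : p ∈ P
    · refine ⟨1, p, by simp, ?_, by simp⟩
      rw [Nat.mem_factoredNumbers']
      intro q hq hqp
      rw [(Nat.prime_dvd_prime_iff_eq hq hp).mp hqp]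
      exact h
    · refine ⟨p, 1, ?_, by simp [Nat.mem_factoredNumbers], by simp⟩
      rw [Nat.coprime_prod_left_iff]
      intro q hq
      rw [Nat.coprime_primes (hP q hq) hp]
      rintro rfl
      exact h hq
  | mul x y ihx ihy =>
    obtain ⟨hx, hy⟩ := mul_ne_zero_iff.mp hm
    obtain ⟨a, s, h1, h2, h3⟩ := ihx hx
    obtain ⟨a', s', h1', h2', h3'⟩ := ihy hy
    exact ⟨a * a', s * s', Nat.Coprime.mul_right h1 h1', Nat.mul_mem_factoredNumbers h2 h2',
      by rw [h3, h3']; ring⟩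

lemma coprime_of (P : Finset ℕ) {a s : ℕ}
    (ha : (∏ p ∈ P, p).Coprime a) (hs : s ∈ Nat.factoredNumbers P) : a.Coprime s := by
  rw [Nat.coprime_iff_gcd_eq_one]
  by_contra h
  obtain ⟨q, hq, hqd⟩ := Nat.exists_prime_and_dvd h
  have h1 := Nat.mem_factoredNumbers'.mp hs q hq (hqd.trans (Nat.gcd_dvd_right _ _))
  rw [Nat.coprime_prod_left_iff] at ha
  have h2 := ha q h1
  exact hq.one_lt.ne' (Nat.Coprime.eq_one_of_dvd h2 (hqd.trans (Nat.gcd_dvd_left _ _)))

lemma decomp_unique (P : Finset ℕ) {a s a' s' : ℕ}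
    (ha : (∏ p ∈ P, p).Coprime a) (hs : s ∈ Nat.factoredNumbers P)
    (ha' : (∏ p ∈ P, p).Coprime a') (hs' : s' ∈ Nat.factoredNumbers P)
    (h : a * s ∣ a' * s') : a ∣ a' ∧ s ∣ s' := by
  constructor
  · exact (coprime_of P ha hs').dvd_of_dvd_mul_right ((dvd_mul_right a s).trans h)
  · exact (coprime_of P ha' hs).symm.dvd_of_dvd_mul_left ((dvd_mul_left s a).trans h)

lemma maxAdm_le_sum (P : Finset ℕ) (hP : ∀ p ∈ P, p.Prime) (n : ℕ) (S : Finset ℕ)
    (hS : S ⊆ Icc 1 n) (W : ℕ → Finset ℕ)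
    (hW : ∀ a s, (∏ p ∈ P, p).Coprime a → s ∈ Nat.factoredNumbers P → a * s ∈ S →
      s ∈ W (n / a)) :
    maxAdm S ≤ ∑ a ∈ (Icc 1 n).filter (fun a => (∏ p ∈ P, p).Coprime a), maxAdm (W (n / a)) := by
  classical
  obtain ⟨A, hA, hA2, hA3⟩ := exists_max S
  have hdec : ∀ m : ℕ, ∃ a : ℕ, m ≠ 0 → (∏ p ∈ P, p).Coprime a ∧
      ∃ s, s ∈ Nat.factoredNumbers P ∧ m = a * s := by
    intro m
    by_cases hm : m = 0
    · exact ⟨0, fun h => absurd hm h⟩
    · obtain ⟨a, s, h1, h2, h3⟩ := exists_decomp P hP m hm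
      exact ⟨a, fun _ => ⟨h1, s, h2, h3⟩⟩
  choose ρ hρ using hdec
  have hmap : ∀ m ∈ A, ρ m ∈ (Icc 1 n).filter (fun a => (∏ p ∈ P, p).Coprime a) := by
    intro m hm
    have hm1 := mem_Icc.mp (hS (hA hm))
    have hm0 : m ≠ 0 := by omega
    obtain ⟨h1, s, h2, h3⟩ := hρ m hm0
    rw [mem_filter, mem_Icc]
    refine ⟨⟨?_, ?_⟩, h1⟩
    · rcases Nat.eq_zero_or_pos (ρ m) with h | h
      · rw [h] at h3; omega
      · exact h
    · have : ρ m ∣ m := ⟨s, h3⟩
      exact (Nat.le_of_dvd (by omega) this).trans hm1.2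
  rw [← hA3, card_eq_sum_card_fiberwise hmap]
  apply sum_le_sum
  intro a ha
  rw [mem_filter, mem_Icc] at ha
  have ha0 : a ≠ 0 := by omega
  have hd : ∀ x ∈ A.filter (fun m => ρ m = a), a ∣ x := by
    intro x hx
    rw [mem_filter] at hx
    have hm1 := mem_Icc.mp (hS (hA hx.1))
    have hm0 : x ≠ 0 := by omega
    obtain ⟨h1, s, h2, h3⟩ := hρ x hm0
    rw [hx.2] at h3
    exact ⟨s, h3⟩
  obtain ⟨h1, h2⟩ := admissible_div (hA2.subset (filter_subset _ _)) ha0 hd
  rw [← h2]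
  apply le_maxAdm _ h1
  intro s hs
  rw [mem_image] at hs
  obtain ⟨m, hm, rfl⟩ := hs
  rw [mem_filter] at hm
  have hm1 := mem_Icc.mp (hS (hA hm.1))
  have hm0 : m ≠ 0 := by omega
  obtain ⟨h1, s, h2, h3⟩ := hρ m hm0
  rw [hm.2] at h3
  have : m / a = s := by
    rw [h3]
    exact Nat.mul_div_cancel_left _ (Nat.pos_of_ne_zero ha0)
  rw [this]
  refine hW a s ha.2 h2 ?_
  rw [← h3]
  exact hA hm.1

lemma sum_le_maxAdm (P : Finset ℕ) (n : ℕ) (S : Finset ℕ)
    (W : ℕ → Finset ℕ)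
    (hW0 : ∀ a ∈ Icc 1 n, ∀ s ∈ W (n / a), s ∈ Nat.factoredNumbers P)
    (hW : ∀ a ∈ Icc 1 n, (∏ p ∈ P, p).Coprime a → ∀ s ∈ W (n / a), a * s ∈ S)
    (hX : ∀ a s a' s' : ℕ, (∏ p ∈ P, p).Coprime a → s ∈ Nat.factoredNumbers P →
      (∏ p ∈ P, p).Coprime a' → s' ∈ Nat.factoredNumbers P → a * s ∈ S → a' * s' ∈ S →
      a * s ∣ a' * s' → a = a') :
    ∑ a ∈ (Icc 1 n).filter (fun a => (∏ p ∈ P, p).Coprime a), maxAdm (W (n / a)) ≤ maxAdm S := by
  classical
  choose B hB1 hB2 hB3 using fun t => exists_max (W t)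
  set I := (Icc 1 n).filter (fun a => (∏ p ∈ P, p).Coprime a) with hI
  set A := I.biUnion (fun a => (B (n / a)).image (a * ·)) with hAdef
  have hAm : ∀ m ∈ A, ∃ a s, (1 ≤ a ∧ a ≤ n) ∧ (∏ p ∈ P, p).Coprime a ∧
      s ∈ Nat.factoredNumbers P ∧ s ∈ B (n / a) ∧ m = a * s ∧ m ∈ S := by
    intro m hm
    rw [hAdef, mem_biUnion] at hm
    obtain ⟨a, ha, hm⟩ := hm
    rw [mem_image] at hm
    obtain ⟨s, hs, rfl⟩ := hm
    rw [hI, mem_filter] at ha
    have hs' := hB1 _ hs
    exact ⟨a, s, mem_Icc.mp ha.1, ha.2, hW0 a ha.1 s hs', hs, rfl, hW a ha.1 ha.2 s hs'⟩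
  have hcard : A.card = ∑ a ∈ I, maxAdm (W (n / a)) := by
    rw [hAdef, card_biUnion]
    · apply sum_congr rfl
      intro a ha
      rw [hI, mem_filter, mem_Icc] at ha
      rw [card_image_of_injective, hB3]
      intro x y hxy
      exact Nat.eq_of_mul_eq_mul_left (by omega) hxy
    · intro a ha a' ha' hne
      rw [Function.onFun, disjoint_left]
      intro m hm hm'
      rw [mem_image] at hm hm'
      obtain ⟨s, hs, rfl⟩ := hm
      obtain ⟨s', hs', h⟩ := hm'
      simp only [hI, coe_filter, Set.mem_ofPred_eq] at ha ha'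
      have hs1 := hW0 a ha.1 s (hB1 _ hs)
      have hs1' := hW0 a' ha'.1 s' (hB1 _ hs')
      have h1 := decomp_unique P ha.2 hs1 ha'.2 hs1' (by rw [h])
      have h2 := decomp_unique P ha'.2 hs1' ha.2 hs1 (by rw [h])
      exact hne (Nat.dvd_antisymm h1.1 h2.1)
  rw [← hcard]
  apply le_maxAdm
  · intro m hm
    obtain ⟨a, s, -, -, -, -, -, h⟩ := hAm m hm
    exact h
  · intro x hx y hy z hz hxy hxz hyz
    rintro ⟨h1, h2⟩
    obtain ⟨a, s, ha, hac, hsf, hs, rfl, hxS⟩ := hAm x hx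
    obtain ⟨b, u, hb, hbc, huf, hu, rfl, hyS⟩ := hAm y hy
    obtain ⟨c, v, hc, hcc, hvf, hv, rfl, hzS⟩ := hAm z hz
    have e1 := hX a s b u hac hsf hbc huf hxS hyS h1
    have e2 := hX a s c v hac hsf hcc hvf hxS hzS h2
    subst e1
    subst e2
    have d1 := (decomp_unique P hac hsf hac huf h1).2
    have d2 := (decomp_unique P hac hsf hac hvf h2).2
    refine hB2 (n / a) s hs u hu v hv ?_ ?_ ?_ ⟨d1, d2⟩
    · rintro rfl; exact hxy rfl
    · rintro rfl; exact hxz rfl
    · rintro rfl; exact hyz rfl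

/-- number of `a ∈ [1,m]` coprime to `M` -/
def R (M m : ℕ) : ℕ := ((Icc 1 m).filter (fun a => M.Coprime a)).card

lemma R_zero (M : ℕ) : R M 0 = 0 := by simp [R]

lemma R_le (M m : ℕ) : R M m ≤ m := by
  have := card_filter_le (Icc 1 m) (fun a => M.Coprime a)
  rw [Nat.card_Icc] at this
  exact this

lemma R_mul (M q : ℕ) : R M (M * q) = q * M.totient := by
  induction q with
  | zero => simp [R]
  | succ q ih =>
    have e : Icc 1 (M * (q + 1)) = Icc 1 (M * q) ∪ Ico (M * q + 1) (M * q + 1 + M) := by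
      ext x
      simp only [mem_Icc, mem_union, mem_Ico]
      rw [mul_add]
      omega
    have hd : Disjoint (Icc 1 (M * q)) (Ico (M * q + 1) (M * q + 1 + M)) := by
      rw [disjoint_left]
      intro x hx
      simp only [mem_Icc, mem_Ico] at hx ⊢
      omega
    unfold R at ih ⊢
    rw [e, filter_union, card_union_of_disjoint (disjoint_filter_filter hd), ih,
      Nat.filter_coprime_Ico_eq_totient]
    ring

lemma R_mono (M : ℕ) {a b : ℕ} (h : a ≤ b) : R M a ≤ R M b := by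
  apply card_le_card
  apply filter_subset_filter
  exact Icc_subset_Icc_right h

lemma R_lower (M m : ℕ) : (m / M) * M.totient ≤ R M m := by
  rw [← R_mul]
  exact R_mono M (Nat.mul_div_le m M)

lemma R_upper (M m : ℕ) (hM : M ≠ 0) : R M m ≤ (m / M + 1) * M.totient := by
  rw [← R_mul]
  apply R_mono
  rw [mul_add, mul_one]
  exact (Nat.lt_mul_div_succ m (Nat.pos_of_ne_zero hM)).le

lemma R_abs (M m : ℕ) (hM : M ≠ 0) : |(R M m : ℝ) - (M.totient : ℝ) / M * m| ≤ M.totient := by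
  have h1 := R_lower M m
  have h2 := R_upper M m hM
  have hMpos : (0 : ℝ) < M := by exact_mod_cast Nat.pos_of_ne_zero hM
  have h3 : ((m / M : ℕ) : ℝ) * M.totient ≤ R M m := by exact_mod_cast h1
  have h4 : (R M m : ℝ) ≤ ((m / M : ℕ) + 1) * M.totient := by exact_mod_cast h2
  have h5 : ((m / M : ℕ) : ℝ) ≤ (m : ℝ) / M := Nat.cast_div_le
  have h6 : (m : ℝ) / M < (m / M : ℕ) + 1 := by
    rw [div_lt_iff₀ hMpos]
    have := Nat.lt_mul_div_succ m (Nat.pos_of_ne_zero hM)
    have h7 : (m : ℝ) < M * ((m / M : ℕ) + 1) := by exact_mod_cast this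
    linarith
  have ht : (0 : ℝ) ≤ M.totient := Nat.cast_nonneg _
  have e : (M.totient : ℝ) / M * m = (m : ℝ) / M * M.totient := by ring
  rw [e, abs_le]
  constructor
  · nlinarith
  · nlinarith

lemma R_tendsto (M i : ℕ) (hM : M ≠ 0) :
    Tendsto (fun n : ℕ => (R M (n / (i + 1)) : ℝ) / n) atTop
      (𝓝 ((M.totient : ℝ) / M / (i + 1))) := by
  -- |R(n/(i+1)) - δ n/(i+1)| ≤ φ + 1
  have hMpos : (0 : ℝ) < M := by exact_mod_cast Nat.pos_of_ne_zero hM
  have hφ : (0 : ℝ) ≤ M.totient := Nat.cast_nonneg _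
  have hδ1 : (M.totient : ℝ) / M ≤ 1 := by
    rw [div_le_one hMpos]; exact_mod_cast Nat.totient_le M
  have hδ0 : 0 ≤ (M.totient : ℝ) / M := by positivity
  have key : ∀ n : ℕ, 0 < n → |(R M (n / (i + 1)) : ℝ) / n - (M.totient : ℝ) / M / (i + 1)| ≤
      ((M.totient : ℝ) + 1) / n := by
    intro n hn
    have hn' : (0 : ℝ) < n := by exact_mod_cast hn
    have h1 := R_abs M (n / (i + 1)) hM
    have h5 : ((n / (i + 1) : ℕ) : ℝ) ≤ (n : ℝ) / (i + 1) := by
      have := @Nat.cast_div_le ℝ _ _ _ n (i + 1)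
      push_cast at this
      exact this
    have h6 : (n : ℝ) / (i + 1) < (n / (i + 1) : ℕ) + 1 := by
      rw [div_lt_iff₀ (by positivity)]
      have := Nat.lt_mul_div_succ n (Nat.succ_pos i)
      have h7 : (n : ℝ) < ((i : ℝ) + 1) * ((n / (i + 1) : ℕ) + 1) := by exact_mod_cast this
      linarith
    have e : (R M (n / (i + 1)) : ℝ) / n - (M.totient : ℝ) / M / (i + 1) =
        ((R M (n / (i + 1)) : ℝ) - (M.totient : ℝ) / M * ((n : ℝ) / (i + 1))) / n := by
      field_simp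
    rw [e, abs_div, abs_of_pos hn']
    gcongr
    rw [abs_le] at h1 ⊢
    constructor
    · have : (M.totient : ℝ) / M * ((n : ℝ) / (i + 1)) ≤
        (M.totient : ℝ) / M * ((n / (i + 1) : ℕ) + 1) := by gcongr
      nlinarith [h1.1]
    · have : (M.totient : ℝ) / M * ((n / (i + 1) : ℕ) : ℝ) ≤
        (M.totient : ℝ) / M * ((n : ℝ) / (i + 1)) := by gcongr
      nlinarith [h1.2]
  rw [tendsto_iff_norm_sub_tendsto_zero]
  have h0 : Tendsto (fun n : ℕ => ((M.totient : ℝ) + 1) / n) atTop (𝓝 0) :=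
    tendsto_const_div_atTop_nhds_zero_nat _
  refine squeeze_zero' (Eventually.of_forall fun n => norm_nonneg _) ?_ h0
  filter_upwards [eventually_gt_atTop 0] with n hn
  rw [Real.norm_eq_abs]
  exact key n hn

/-- main averaging lemma -/
lemma avg_tendsto (M : ℕ) (hM : M ≠ 0) (g : ℕ → ℝ) (g0 : g 0 = 0)
    (hs : Summable fun i : ℕ => |g (i + 1) - g i| / ((i : ℝ) + 1)) :
    Tendsto (fun n : ℕ => (∑ a ∈ (Icc 1 n).filter (fun a => M.Coprime a), g (n / a)) / (n : ℝ))
      atTop (𝓝 ((M.totient : ℝ) / M * ∑' i : ℕ, (g (i + 1) - g i) / ((i : ℝ) + 1))) := by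
  have h1 : ∀ n : ℕ, ∑ a ∈ (Icc 1 n).filter (fun a => M.Coprime a), g (n / a) =
      ∑ i ∈ range n, (g (i + 1) - g i) * R M (n / (i + 1)) := by
    intro n
    have e1 : ∀ a ∈ (Icc 1 n).filter (fun a => M.Coprime a), g (n / a) =
        ∑ i ∈ range n, if i + 1 ≤ n / a then (g (i + 1) - g i) else 0 := by
      intro a ha
      rw [← sum_filter]
      have : (range n).filter (fun i => i + 1 ≤ n / a) = range (n / a) := by
        ext i
        simp only [mem_filter, mem_range]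
        have := Nat.div_le_self n a
        omega
      rw [this, sum_range_sub, g0, sub_zero]
    rw [sum_congr rfl e1, sum_comm]
    apply sum_congr rfl
    intro i hi
    rw [← sum_filter, sum_const, nsmul_eq_mul, mul_comm]
    congr 2
    unfold R
    congr 1
    ext a
    simp only [mem_filter, mem_Icc]
    constructor
    · rintro ⟨⟨⟨h1, h2⟩, h3⟩, h4⟩
      refine ⟨⟨h1, ?_⟩, h3⟩
      rw [Nat.le_div_iff_mul_le (by omega)] at h4 ⊢
      rw [mul_comm]; exact h4
    · rintro ⟨⟨h1, h2⟩, h3⟩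
      have : n / (i + 1) ≤ n := Nat.div_le_self _ _
      refine ⟨⟨⟨h1, by omega⟩, h3⟩, ?_⟩
      rw [Nat.le_div_iff_mul_le (by omega)] at h2 ⊢
      rw [mul_comm]; exact h2
  have h2 : ∀ n : ℕ, (∑ a ∈ (Icc 1 n).filter (fun a => M.Coprime a), g (n / a)) / (n : ℝ) =
      ∑' i : ℕ, (g (i + 1) - g i) * ((R M (n / (i + 1)) : ℝ) / n) := by
    intro n
    rw [h1, sum_div, tsum_eq_sum (s := range n)]
    · apply sum_congr rfl
      intro i _
      ring
    · intro i hi
      rw [mem_range, not_lt] at hi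
      have : n / (i + 1) = 0 := Nat.div_eq_of_lt (by omega)
      rw [this, R_zero]
      simp
  simp_rw [h2]
  have h3 : (M.totient : ℝ) / M * ∑' i : ℕ, (g (i + 1) - g i) / ((i : ℝ) + 1) =
      ∑' i : ℕ, (g (i + 1) - g i) * ((M.totient : ℝ) / M / (i + 1)) := by
    rw [← tsum_mul_left]
    congr 1
    ext i
    ring
  rw [h3]
  refine tendsto_tsum_of_dominated_convergence hs ?_ ?_
  · intro i
    exact (R_tendsto M i hM).const_mul _
  · filter_upwards [eventually_gt_atTop 0] with n hn i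
    have hn' : (0 : ℝ) < n := by exact_mod_cast hn
    have h5 : ((n / (i + 1) : ℕ) : ℝ) ≤ (n : ℝ) / (i + 1) := by
      have := @Nat.cast_div_le ℝ _ _ _ n (i + 1)
      push_cast at this
      exact this
    have h6 : (R M (n / (i + 1)) : ℝ) ≤ (n / (i + 1) : ℕ) := by exact_mod_cast R_le M _
    have h7 := h6.trans h5
    have h8 : (R M (n / (i + 1)) : ℝ) / n ≤ 1 / ((i : ℝ) + 1) := by
      rw [div_le_div_iff₀ hn' (by positivity)]
      rw [le_div_iff₀ (by positivity)] at h7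
      linarith
    calc ‖(g (i + 1) - g i) * ((R M (n / (i + 1)) : ℝ) / n)‖
        = |g (i + 1) - g i| * ((R M (n / (i + 1)) : ℝ) / n) := by
          rw [norm_mul, Real.norm_eq_abs, Real.norm_eq_abs]
          congr 1
          exact abs_of_nonneg (by positivity)
      _ ≤ |g (i + 1) - g i| * (1 / ((i : ℝ) + 1)) :=
          mul_le_mul_of_nonneg_left h8 (abs_nonneg _)
      _ = |g (i + 1) - g i| / ((i : ℝ) + 1) := by ring

lemma summable_factored (P : Finset ℕ) :
    Summable fun i : ℕ => (if i ∈ Nat.factoredNumbers P then (1 : ℝ) / i else 0) := by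
  classical
  let f : ℕ →* ℝ :=
    { toFun := fun n => (n : ℝ)⁻¹
      map_one' := by simp
      map_mul' := by intro a b; push_cast; rw [mul_inv] }
  have h : ∀ {p : ℕ}, p.Prime → ‖f p‖ < 1 := by
    intro p hp
    have : (1 : ℝ) < p := by exact_mod_cast hp.one_lt
    change ‖(p : ℝ)⁻¹‖ < 1
    rw [norm_inv, Real.norm_natCast]
    exact inv_lt_one_of_one_lt₀ this
  have := (EulerProduct.summable_and_hasSum_factoredNumbers_prod_filter_prime_geometric h P).1
  have h2 := (summable_subtype_iff_indicator (f := fun n : ℕ => ‖f n‖)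
    (s := Nat.factoredNumbers P)).mp this
  refine h2.congr ?_
  intro i
  rw [Set.indicator_apply]
  by_cases hi : i ∈ Nat.factoredNumbers P
  · rw [if_pos hi, if_pos hi]
    change ‖(i : ℝ)⁻¹‖ = _
    rw [norm_inv, Real.norm_natCast, one_div]
  · rw [if_neg hi, if_neg hi]

lemma h_zero (y : ℕ) : h y 0 = 0 := by
  have := maxAdm_le_card ((Icc 1 0).filter fun s => s ∈ Nat.smoothNumbers y ∧ 0 < s * y)
  simpa [h] using this

lemma h_up (y i : ℕ) : h y (i + 1) ≤ h y i + (if i + 1 ∈ Nat.smoothNumbers y then 1 else 0) := by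
  unfold h
  have := @maxAdm_le_add ((Icc 1 (i + 1)).filter fun s => s ∈ Nat.smoothNumbers y ∧ i + 1 < s * y)
    ((Icc 1 i).filter fun s => s ∈ Nat.smoothNumbers y ∧ i < s * y)
    (if i + 1 ∈ Nat.smoothNumbers y then {i + 1} else ∅) ?_
  · split_ifs at this ⊢ with hh
    · simpa using this
    · simpa using this
  · intro s hs
    simp only [mem_filter, mem_Icc, mem_union] at hs ⊢
    obtain ⟨⟨h1, h2⟩, h3, h4⟩ := hs
    rcases Nat.lt_or_ge s (i + 1) with h5 | h5
    · left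
      exact ⟨⟨h1, by omega⟩, h3, by omega⟩
    · right
      have : s = i + 1 := by omega
      subst this
      rw [if_pos h3]
      simp

lemma h_down (y i : ℕ) (hy : 2 ≤ y) : h y i ≤ h y (i + 1) +
    (if y ∣ i + 1 ∧ (i + 1) / y ∈ Nat.smoothNumbers y then 1 else 0) := by
  unfold h
  have := @maxAdm_le_add ((Icc 1 i).filter fun s => s ∈ Nat.smoothNumbers y ∧ i < s * y)
    ((Icc 1 (i + 1)).filter fun s => s ∈ Nat.smoothNumbers y ∧ i + 1 < s * y)
    (if y ∣ i + 1 ∧ (i + 1) / y ∈ Nat.smoothNumbers y then {(i + 1) / y} else ∅) ?_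
  · split_ifs at this ⊢ with hh
    · simpa using this
    · simpa using this
  · intro s hs
    simp only [mem_filter, mem_Icc, mem_union] at hs ⊢
    obtain ⟨⟨h1, h2⟩, h3, h4⟩ := hs
    rcases Nat.lt_or_ge (i + 1) (s * y) with h5 | h5
    · left
      exact ⟨⟨h1, by omega⟩, h3, h5⟩
    · right
      have h6 : s * y = i + 1 := by omega
      have h7 : (i + 1) / y = s := by
        rw [← h6]
        exact Nat.mul_div_cancel _ (by omega)
      rw [h7, if_pos ⟨⟨s, by rw [← h6]; ring⟩, h3⟩]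
      simp

lemma summable_h (y : ℕ) (hy : 2 ≤ y) :
    Summable fun i : ℕ => |(h y (i + 1) : ℝ) - h y i| / ((i : ℝ) + 1) := by
  have s1 : Summable fun i : ℕ =>
      (if i ∈ Nat.smoothNumbers y then (1 : ℝ) / i else 0) := by
    have h0 := summable_factored (Nat.primesBelow y)
    refine h0.congr (fun i => ?_)
    have h1 : i ∈ Nat.smoothNumbers y ↔ i ∈ Nat.factoredNumbers (Nat.primesBelow y) := by
      rw [Nat.smoothNumbers_eq_factoredNumbers_primesBelow]
    by_cases h2 : i ∈ Nat.smoothNumbers y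
    · rw [if_pos h2, if_pos (h1.mp h2)]
    · rw [if_neg h2, if_neg (fun h3 => h2 (h1.mpr h3))]
  have s2 : Summable fun i : ℕ =>
      (if y ∣ i ∧ i / y ∈ Nat.smoothNumbers y then (1 : ℝ) / i else 0) := by
    have hinj : Function.Injective (fun j : ℕ => y * j) := by
      intro a b hab
      exact Nat.eq_of_mul_eq_mul_left (by omega) hab
    rw [← hinj.summable_iff]
    · have := s1.mul_left ((y : ℝ)⁻¹)
      refine this.congr ?_
      intro j
      simp only [Function.comp_apply]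
      have e : y * j / y = j := Nat.mul_div_cancel_left _ (by omega)
      rw [e]
      by_cases hj : j ∈ Nat.smoothNumbers y
      · rw [if_pos hj, if_pos ⟨dvd_mul_right _ _, hj⟩]
        push_cast
        rw [one_div, one_div, mul_inv]
      · rw [if_neg hj, if_neg (fun hh => hj hh.2), mul_zero]
    · intro x hx
      rw [if_neg]
      rintro ⟨⟨j, rfl⟩, -⟩
      exact hx ⟨j, rfl⟩
  have s3 := ((summable_nat_add_iff 1).mpr s1).add ((summable_nat_add_iff 1).mpr s2)
  refine Summable.of_nonneg_of_le (fun i => by positivity) ?_ s3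
  intro i
  have h1 := h_up y i
  have h2 := h_down y i hy
  have h1' : (h y (i + 1) : ℝ) ≤ h y i + (if i + 1 ∈ Nat.smoothNumbers y then 1 else 0) := by
    exact_mod_cast h1
  have h2' : (h y i : ℝ) ≤ h y (i + 1) +
    (if y ∣ i + 1 ∧ (i + 1) / y ∈ Nat.smoothNumbers y then 1 else 0) := by
    exact_mod_cast h2
  have h3 : |(h y (i + 1) : ℝ) - h y i| ≤ (if i + 1 ∈ Nat.smoothNumbers y then (1 : ℝ) else 0) +
      (if y ∣ i + 1 ∧ (i + 1) / y ∈ Nat.smoothNumbers y then (1 : ℝ) else 0) := by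
    have p1 : (0 : ℝ) ≤ (if i + 1 ∈ Nat.smoothNumbers y then (1 : ℝ) else 0) := by
      split_ifs <;> norm_num
    have p2 : (0 : ℝ) ≤
        (if y ∣ i + 1 ∧ (i + 1) / y ∈ Nat.smoothNumbers y then (1 : ℝ) else 0) := by
      split_ifs <;> norm_num
    rw [abs_le]
    constructor <;> linarith
  have h4 : (0 : ℝ) < (i : ℝ) + 1 := by positivity
  calc |(h y (i + 1) : ℝ) - h y i| / ((i : ℝ) + 1)
      ≤ ((if i + 1 ∈ Nat.smoothNumbers y then (1 : ℝ) else 0) +
      (if y ∣ i + 1 ∧ (i + 1) / y ∈ Nat.smoothNumbers y then (1 : ℝ) else 0)) / ((i : ℝ) + 1) := by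
        gcongr
    _ = _ := by
        rw [add_div, ite_div, ite_div]
        push_cast
        simp only [zero_div]

/-- the restricted problem on `(n/y, n]` splits into smooth components -/
lemma window_eq (y n : ℕ) :
    maxAdm ((Icc 1 n).filter fun m => n < m * y) =
      ∑ a ∈ (Icc 1 n).filter (fun a => (∏ p ∈ Nat.primesBelow y, p).Coprime a), h y (n / a) := by
  have hP : ∀ p ∈ Nat.primesBelow y, p.Prime := fun p hp => Nat.prime_of_mem_primesBelow hp
  apply le_antisymm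
  · refine maxAdm_le_sum (Nat.primesBelow y) hP n _ (filter_subset _ _)
      (fun t => (Icc 1 t).filter fun s => s ∈ Nat.smoothNumbers y ∧ t < s * y) ?_
    intro a s ha hs has
    simp only [mem_filter, mem_Icc] at has ⊢
    obtain ⟨⟨h1, h2⟩, h3⟩ := has
    have ha0 : 0 < a := by
      rcases Nat.eq_zero_or_pos a with h | h
      · subst h; simp at h1
      · exact h
    have hs0 : 0 < s := by
      rcases Nat.eq_zero_or_pos s with h | h
      · subst h; simp at h1
      · exact h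
    refine ⟨⟨hs0, ?_⟩, ?_, ?_⟩
    · rw [Nat.le_div_iff_mul_le ha0, mul_comm]; exact h2
    · rw [Nat.smoothNumbers_eq_factoredNumbers_primesBelow]; exact hs
    · rw [Nat.div_lt_iff_lt_mul ha0]
      calc n < a * s * y := h3
        _ = s * y * a := by ring
  · refine sum_le_maxAdm (Nat.primesBelow y) n _
      (fun t => (Icc 1 t).filter fun s => s ∈ Nat.smoothNumbers y ∧ t < s * y) ?_ ?_ ?_
    · intro a _ s hs
      simp only [mem_filter, mem_Icc] at hs
      rw [← Nat.smoothNumbers_eq_factoredNumbers_primesBelow]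
      exact hs.2.1
    · intro a ha _ s hs
      simp only [mem_filter, mem_Icc] at ha hs ⊢
      obtain ⟨⟨h1, h2⟩, h3, h4⟩ := hs
      have ha0 : 0 < a := by omega
      rw [Nat.le_div_iff_mul_le ha0] at h2
      rw [Nat.div_lt_iff_lt_mul ha0] at h4
      refine ⟨⟨?_, by rw [mul_comm]; exact h2⟩, ?_⟩
      · exact Nat.mul_pos ha0 h1
      · calc n < s * y * a := h4
          _ = a * s * y := by ring
    · intro a s a' s' hac hs hac' hs' hm hm' hdvd
      simp only [mem_filter, mem_Icc] at hm hm'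
      obtain ⟨d1, d2⟩ := decomp_unique _ hac hs hac' hs' hdvd
      obtain ⟨k, hk⟩ := hdvd
      obtain ⟨u, rfl⟩ := d1
      obtain ⟨v, rfl⟩ := d2
      have hpos : 0 < a * s := by omega
      have hk' : k = u * v := by
        apply Nat.eq_of_mul_eq_mul_left hpos
        rw [← hk]; ring
      have hv0 : 0 < v := by
        rcases Nat.eq_zero_or_pos v with h | h
        · subst h; simp at hm'
        · exact h
      have hu0 : 0 < u := by
        rcases Nat.eq_zero_or_pos u with h | h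
        · subst h; simp at hm'
        · exact h
      have hklt : k < y := by
        have h1 : a * s * k ≤ n := by rw [← hk]; exact hm'.1.2
        have h2 : n < a * s * y := hm.2
        exact Nat.lt_of_mul_lt_mul_left (h1.trans_lt h2)
      have hult : u < y := lt_of_le_of_lt (by rw [hk']; exact Nat.le_mul_of_pos_right _ hv0) hklt
      have husm : u ∈ Nat.factoredNumbers (Nat.primesBelow y) := by
        rw [← Nat.smoothNumbers_eq_factoredNumbers_primesBelow]
        exact Nat.mem_smoothNumbers_of_lt hu0 hult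
      have hcu : u.Coprime u := by
        refine coprime_of (Nat.primesBelow y) ?_ husm
        exact Nat.Coprime.coprime_mul_left_right hac'
      have : u = 1 := by simpa using hcu
      rw [this, mul_one]

lemma window_tendsto (y : ℕ) (hy : 2 ≤ y) :
    Tendsto (fun n : ℕ => (maxAdm ((Icc 1 n).filter fun m => n < m * y) : ℝ) / n) atTop
      (𝓝 ((∏ p ∈ Nat.primesBelow y, (1 - 1 / (p : ℝ))) *
        ∑' i : ℕ, ((h y (i + 1) : ℝ) - h y i) / ((i : ℝ) + 1))) := by
  have hP : ∀ p ∈ Nat.primesBelow y, p.Prime := fun p hp => Nat.prime_of_mem_primesBelow hp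
  have hM : (∏ p ∈ Nat.primesBelow y, p) ≠ 0 := by
    rw [prod_ne_zero_iff]
    intro p hp
    exact (hP p hp).ne_zero
  have hδ : ((∏ p ∈ Nat.primesBelow y, p).totient : ℝ) / ((∏ p ∈ Nat.primesBelow y, p : ℕ) : ℝ) =
      ∏ p ∈ Nat.primesBelow y, (1 - 1 / (p : ℝ)) := by
    have h1 := Nat.totient_eq_mul_prod_factors (∏ p ∈ Nat.primesBelow y, p)
    rw [Nat.primeFactors_prod hP] at h1
    have h2 : ((∏ p ∈ Nat.primesBelow y, p).totient : ℝ) =
        ((∏ p ∈ Nat.primesBelow y, p : ℕ) : ℝ) * ∏ p ∈ Nat.primesBelow y, (1 - (p : ℝ)⁻¹) := by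
      have h3 := congrArg (fun q : ℚ => (q : ℝ)) h1
      push_cast at h3 ⊢
      exact h3
    rw [h2, mul_comm, mul_div_assoc, div_self (by exact_mod_cast hM), mul_one]
    simp only [one_div]
  have h1 := avg_tendsto _ hM (fun t => (h y t : ℝ)) (by simp [h_zero]) (summable_h y hy)
  rw [hδ] at h1
  refine h1.congr ?_
  intro n
  rw [window_eq y n]
  push_cast
  rfl

lemma f_bounds (y n : ℕ) (hy : 2 ≤ y) :
    maxAdm ((Icc 1 n).filter fun m => n < m * y) ≤ f n ∧
    f n ≤ maxAdm ((Icc 1 n).filter fun m => n < m * y) + n / y := by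
  constructor
  · exact maxAdm_mono (filter_subset _ _)
  · have := @maxAdm_le_add (Icc 1 n) ((Icc 1 n).filter fun m => n < m * y) (Icc 1 (n / y)) ?_
    · rw [Nat.card_Icc] at this
      exact this
    · intro m hm
      simp only [mem_union, mem_filter, mem_Icc] at hm ⊢
      rcases Nat.lt_or_ge n (m * y) with h1 | h1
      · left; exact ⟨hm, h1⟩
      · right
        refine ⟨hm.1, ?_⟩
        rw [Nat.le_div_iff_mul_le (by omega)]
        exact h1

theorem limit_exists :
    ∃ c : ℝ, Tendsto (fun n : ℕ => (f n : ℝ) / n) atTop (𝓝 c) ∧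
      ∀ y : ℕ, 2 ≤ y →
        (Summable fun i : ℕ => |(h y (i + 1) : ℝ) - h y i| / ((i : ℝ) + 1)) ∧
        (∏ p ∈ Nat.primesBelow y, (1 - 1 / (p : ℝ))) *
          ∑' i : ℕ, ((h y (i + 1) : ℝ) - h y i) / ((i : ℝ) + 1) ≤ c ∧
        c ≤ (∏ p ∈ Nat.primesBelow y, (1 - 1 / (p : ℝ))) *
          ∑' i : ℕ, ((h y (i + 1) : ℝ) - h y i) / ((i : ℝ) + 1) + 1 / y := by
  have hlow : ∀ y n : ℕ, 2 ≤ y → (maxAdm ((Icc 1 n).filter fun m => n < m * y) : ℝ) / n ≤
      (f n : ℝ) / n := by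
    intro y n hy
    have := (f_bounds y n hy).1
    gcongr
  have hup : ∀ y n : ℕ, 2 ≤ y → (f n : ℝ) / n ≤
      (maxAdm ((Icc 1 n).filter fun m => n < m * y) : ℝ) / n + 1 / y := by
    intro y n hy
    rcases Nat.eq_zero_or_pos n with h0 | h0
    · subst h0; simp
    have hn : (0 : ℝ) < n := by exact_mod_cast h0
    have h1 := (f_bounds y n hy).2
    have h2 : (f n : ℝ) ≤ maxAdm ((Icc 1 n).filter fun m => n < m * y) + (n / y : ℕ) := by
      exact_mod_cast h1
    have h3 : ((n / y : ℕ) : ℝ) ≤ (n : ℝ) / y := Nat.cast_div_le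
    rw [div_le_iff₀ hn, add_mul, div_mul_cancel₀ _ hn.ne']
    have h4 : (1 : ℝ) / y * n = n / y := by ring
    rw [h4]
    linarith
  have hc : ∃ c : ℝ, Tendsto (fun n : ℕ => (f n : ℝ) / n) atTop (𝓝 c) := by
    apply cauchySeq_tendsto_of_complete
    rw [Metric.cauchySeq_iff']
    intro ε hε
    obtain ⟨y0, hy0⟩ := exists_nat_gt (3 / ε)
    set y := max y0 2 with hydef
    have hy : 2 ≤ y := le_max_right _ _
    have hyε : 1 / (y : ℝ) < ε / 3 := by
      have h1 : (3 / ε : ℝ) < y := hy0.trans_le (by exact_mod_cast le_max_left _ _)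
      have h2 : (0 : ℝ) < y := by positivity
      rw [div_lt_iff₀ hε] at h1
      rw [div_lt_iff₀ h2]
      linarith
    have h1 := (window_tendsto y hy)
    rw [Metric.tendsto_atTop] at h1
    obtain ⟨N, hN⟩ := h1 (ε / 3) (by positivity)
    refine ⟨N, fun n hn => ?_⟩
    have a1 := hN n hn
    have a2 := hN N le_rfl
    have b1 := hlow y n hy
    have b2 := hup y n hy
    have b3 := hlow y N hy
    have b4 := hup y N hy
    rw [Real.dist_eq, abs_lt] at a1 a2 ⊢
    constructor <;> linarith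
  obtain ⟨c, hc⟩ := hc
  refine ⟨c, hc, fun y hy => ⟨summable_h y hy, ?_, ?_⟩⟩
  · exact le_of_tendsto_of_tendsto' (window_tendsto y hy) hc (fun n => hlow y n hy)
  · exact le_of_tendsto_of_tendsto' hc ((window_tendsto y hy).add_const _) (fun n => hup y n hy)

end Pool.Agent.Helper90.NoTwoMultiples
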