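import Mathlib
import Pool.Agent.Helper38.QDefs
import Pool.Agent.Helper38.KCls

open MvPolynomial Module

namespace Pool.Agent.Helper38

noncomputable section

section T3

variable {σ Y : Type} [Fintype σ] [Fintype Y]

/-- linear forms as a homomorphism -/
def linHom (Y : Type) [Fintype Y] : (Y → ℤ) →+ MvPolynomial Y ℚ where
  toFun := linForm
  map_zero' := by simp [linForm]
  map_add' a b := by simp [linForm, add_mul, Finset.sum_add_distrib]

lemma linHom_apply (μ : Y → ℤ) : linHom Y μ = linForm μ := rfl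

omit [Fintype Y] in
/-- T3a -/
lemma weightDim_eq {w : σ → (Y → ℤ)} (hw : PosW w) (I : Ideal (MvPolynomial σ ℂ))
    (μ : Y → ℤ) : (weightDim w I μ : ℤ) = hilb w I μ := by
  have hfin := finite_whs (k := ℂ) hw μ
  set f : MvPolynomial σ ℂ →ₗ[ℂ] (MvPolynomial σ ℂ ⧸ I) := (Ideal.Quotient.mkₐ ℂ I).toLinearMap
    with hf
  have h1 := LinearMap.finrank_range_add_finrank_ker (f.domRestrict (whs ℂ w μ))
  have h2 : LinearMap.range (f.domRestrict (whs ℂ w μ)) = (whs ℂ w μ).map f := by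
    rw [LinearMap.domRestrict, LinearMap.range_comp, Submodule.range_subtype]
  have h3 : LinearMap.ker (f.domRestrict (whs ℂ w μ)) =
      (wp w I μ).comap (whs ℂ w μ).subtype := by
    ext ⟨x, hx⟩
    rw [LinearMap.mem_ker, Submodule.mem_comap, Submodule.subtype_apply, mem_wp]
    change Ideal.Quotient.mk I x = 0 ↔ _
    rw [Ideal.Quotient.eq_zero_iff_mem]
    exact ⟨fun h => ⟨h, hx⟩, fun h => h.1⟩
  rw [h2, h3, LinearEquiv.finrank_eq (Submodule.comapSubtypeEquivOfLe (wp_le _ _ _))] at h1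
  have h4 : weightDim w I μ = finrank ℂ ((whs ℂ w μ).map f) := rfl
  rw [hilb, h4, ← h1]
  push_cast
  ring

lemma act_prod {X : Type} [AddCommGroup X] {σ : Type} (w : σ → X) (s : Finset σ) (h : X → ℤ)
    (μ : X) : act (∏ i ∈ s, (1 - AddMonoidAlgebra.single (w i) 1)) h μ =
      ∑ A ∈ s.powerset, (-1) ^ A.card * h (μ - ∑ i ∈ A, w i) := by
  classical
  induction s using Finset.induction_on generalizing μ with
  | empty => simp
  | insert i s hi ih =>
    rw [Finset.prod_insert hi, act_mul, act_one_sub, ih, ih, Finset.sum_powerset_insert hi,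
      sub_eq_add_neg, ← Finset.sum_neg_distrib]
    congr 1
    apply Finset.sum_congr rfl
    intro A hA
    have hiA : i ∉ A := fun h => hi (Finset.mem_powerset.1 hA h)
    rw [Finset.card_insert_of_notMem hiA, Finset.sum_insert hiA]
    have : μ - w i - ∑ i ∈ A, w i = μ - (w i + ∑ i ∈ A, w i) := by abel
    rw [this]
    ring

omit [Fintype Y] in
/-- T3b -/
lemma kCoeff_eq {w : σ → (Y → ℤ)} (hw : PosW w) {I : Ideal (MvPolynomial σ ℂ)}
    (hI : IsHomog w I) : kCoeff w I = cf (kq w I) := by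
  rw [← kq_spec hw hI]
  ext μ
  rw [den, act_prod, kCoeff, Finset.powerset_univ]
  apply Finset.sum_congr rfl
  intro A _
  rw [weightDim_eq hw]

lemma coeff_Phi_eq_finsum (q : Lau (Y → ℤ)) (n : ℕ) :
    (∑ᶠ μ : Y → ℤ, C ((cf q μ : ℚ) * (-1) ^ n / n.factorial) * linForm μ ^ n) =
      PowerSeries.coeff n (Phi (linHom Y) q) := by
  rw [finsum_eq_sum_of_support_subset (s := q.coeff.support)]
  · rw [Phi, AddMonoidAlgebra.lift_apply, Finsupp.sum, map_sum]
    apply Finset.sum_congr rfl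
    intro μ _
    change _ = PowerSeries.coeff n ((q.coeff μ : ℤ) • expS (-(linForm μ)))
    rw [map_zsmul, coeff_expS, zsmul_eq_mul]
    rw [MvPolynomial.algebraMap_eq, neg_pow (linForm μ) n]
    have h2 : ((q.coeff μ : ℤ) : MvPolynomial Y ℚ) = C ((q.coeff μ : ℤ) : ℚ) := by simp
    have h3 : ((-1 : MvPolynomial Y ℚ)) ^ n = C ((-1 : ℚ) ^ n) := by simp
    rw [h2, h3, cf]
    rw [← mul_assoc, ← mul_assoc, ← C_mul, ← C_mul]
    congr 2
    ring
  · intro μ hμ
    rw [Function.mem_support] at hμ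
    rw [Finset.mem_coe, Finsupp.mem_support_iff]
    intro h
    apply hμ
    simp only [cf]
    rw [h]
    simp

/-- T3c -/
lemma kPart_eq {w : σ → (Y → ℤ)} (hw : PosW w) {I : Ideal (MvPolynomial σ ℂ)}
    (hI : IsHomog w I) (n : ℕ) :
    kPart w I n = PowerSeries.coeff n (Phi (linHom Y) (kq w I)) := by
  rw [kPart, kCoeff_eq hw hI, coeff_Phi_eq_finsum]

/-- evaluation of the roots at the values of a functional -/
def evL (ℓ : (Y → ℤ) →+ ℤ) [DecidableEq Y] : MvPolynomial Y ℚ →+* ℚ :=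
  MvPolynomial.eval fun y => ((ℓ (Pi.single y 1) : ℤ) : ℚ)

lemma evL_linForm (ℓ : (Y → ℤ) →+ ℤ) [DecidableEq Y] (μ : Y → ℤ) :
    evL ℓ (linForm μ) = ((ℓ μ : ℤ) : ℚ) := by
  have h1 : μ = ∑ y, μ y • (Pi.single y (1 : ℤ) : Y → ℤ) := by
    ext z
    rw [Finset.sum_apply]
    simp [Pi.single_apply]
  conv_rhs => rw [h1, map_sum]
  rw [evL, linForm, map_sum]
  push_cast
  apply Finset.sum_congr rfl
  intro y _
  rw [map_mul, eval_C, eval_X, map_zsmul]
  simp

/-- T3d -/
theorem multidegree_eq {w : σ → (Y → ℤ)} {ℓ : (Y → ℤ) →+ ℤ} (hw : PosL ℓ w)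
    {I : Ideal (MvPolynomial σ ℂ)} (hI : IsHomog w I) (hne : I ≠ ⊤) :
    {μ | kCoeff w I μ ≠ 0}.Finite ∧ (∃ n, kPart w I n ≠ 0) ∧
      multidegree w I = cls I (fun i => linForm (w i)) := by
  classical
  have hlead := isLead_kq hw hI hne
  have hlow : ∀ n < ord I, kPart w I n = 0 := by
    intro n hn
    rw [kPart_eq hw.posW hI]
    exact hlead.low _ _ _ hn
  have hord : kPart w I (ord I) = cls I (fun i => linForm (w i)) := by
    rw [kPart_eq hw.posW hI, coeff_kq hw]
    rfl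
  have hnz : kPart w I (ord I) ≠ 0 := by
    intro h
    have h1 := hlead.pos
    have h2 := map_Phi (evL ℓ) (linHom Y) (kq w I)
    have h3 : ((evL ℓ : MvPolynomial Y ℚ →+ ℚ).comp (linHom Y)) = (Int.castAddHom ℚ).comp ℓ := by
      exact AddMonoidHom.ext fun μ => evL_linForm ℓ μ
    rw [h3] at h2
    rw [← h2, PowerSeries.coeff_map, ← kPart_eq hw.posW hI, h, map_zero] at h1
    exact lt_irrefl _ h1
  refine ⟨?_, ⟨_, hnz⟩, ?_⟩
  · rw [kCoeff_eq hw.posW hI]
    apply (kq w I).coeff.hasFiniteSupport.subset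
    intro μ hμ
    exact hμ
  · rw [multidegree, ← hord]
    congr 1
    apply le_antisymm
    · exact Nat.sInf_le hnz
    · apply le_csInf ⟨_, hnz⟩
      intro n hn
      by_contra hlt
      exact hn (hlow n (not_le.1 hlt))

end T3

end

end Pool.Agent.Helper38
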